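import Mathlib

/-!
Reset automata, and the link between finiteness of the group and periodicity of the one way
cellular automaton.
-/

namespace Pool.Agent.Lib.MP_322aed_lc

open Function Pointwise

/-- The map on words of state `x` of the reset automaton `(f, ρ)`:
`ρ_x(a u) = ρ_x(a) ρ_{f a}(u)`. -/
def wordMap {A α : Type} (f : α → A) (ρ : A → Equiv.Perm α) : A → List α → List α
  | _, [] => []
  | x, a :: u => ρ x a :: wordMap f ρ (f a) u

/-- Every state of an invertible reset automaton acts bijectively on words. -/
theorem wordMap_bijective {A α : Type} (f : α → A) (ρ : A → Equiv.Perm α) (x : A) :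
    Bijective (wordMap f ρ x) := by
  constructor
  · intro u v h
    induction u generalizing x v with
    | nil => cases v with
      | nil => rfl
      | cons b v => simp [wordMap] at h
    | cons a u ih => cases v with
      | nil => simp [wordMap] at h
      | cons b v =>
        simp only [wordMap, List.cons.injEq, EmbeddingLike.apply_eq_iff_eq] at h
        obtain ⟨rfl, h⟩ := h
        rw [ih _ h]
  · intro v
    induction v generalizing x with
    | nil => exact ⟨[], rfl⟩
    | cons b v ih =>
      obtain ⟨u, hu⟩ := ih (f ((ρ x).symm b))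
      exact ⟨(ρ x).symm b :: u, by simp [wordMap, hu]⟩

section

variable {α : Type} (ρ : α → Equiv.Perm α)

/-- The inverse map on words. -/
def wordInv : α → List α → List α
  | _, [] => []
  | x, b :: u => (ρ x).symm b :: wordInv ((ρ x).symm b) u

/-- The generators. -/
def gen (x : α) : Equiv.Perm (List α) where
  toFun := wordMap id ρ x
  invFun := wordInv ρ x
  left_inv := by
    intro u
    induction u generalizing x with
    | nil => rfl
    | cons a u ih => simp [wordMap, wordInv, ih]
  right_inv := by
    intro u
    induction u generalizing x with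
    | nil => rfl
    | cons a u ih => simp [wordMap, wordInv, ih]

theorem gens_eq : {g : Equiv.Perm (List α) | ∃ x, ⇑g = wordMap id ρ x} = Set.range (gen ρ) := by
  ext g
  constructor
  · rintro ⟨x, h⟩
    exact ⟨x, Equiv.ext fun u => (congrFun h u).symm⟩
  · rintro ⟨x, rfl⟩
    exact ⟨x, rfl⟩

/-- The one way cellular automaton of the reset automaton. -/
def ca (c : ℤ → α) : ℤ → α := fun i => ρ (c (i - 1)) (c i)

theorem gen_length (x : α) (u : List α) : (gen ρ x u).length = u.length := by
  induction u generalizing x with
  | nil => rfl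
  | cons a u ih => exact congrArg (· + 1) (ih a)

theorem gen_take (x : α) (u : List α) (n : ℕ) : (gen ρ x u).take n = gen ρ x (u.take n) := by
  induction u generalizing x n with
  | nil => simp only [List.take_nil]; exact List.take_nil
  | cons a u ih =>
    cases n with
    | zero => rfl
    | succ n => exact congrArg (ρ x a :: ·) (ih a n)

theorem gen_get (x : α) (u : List α) (k : ℕ) (a b : α) (ha : u[k]? = some a)
    (hb : u[k + 1]? = some b) : (gen ρ x u)[k + 1]? = some (ρ a b) := by
  induction u generalizing x k with
  | nil => simp at ha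
  | cons y u ih =>
    cases k with
    | zero =>
      cases u with
      | nil => simp at hb
      | cons y' u =>
        simp only [List.getElem?_cons_zero, Option.some.injEq, zero_add,
          List.getElem?_cons_succ] at ha hb
        subst ha hb
        rfl
    | succ k =>
      rw [List.getElem?_cons_succ] at ha hb
      exact ih y k ha hb

theorem prod_get (w u : List α) (c : ℤ → α) (o : ℤ)
    (h : ∀ k, k < u.length → u[k]? = some (c (o + k))) (k : ℕ) (h1 : w.length ≤ k)
    (h2 : k < u.length) :
    ((w.map (gen ρ)).prod u)[k]? = some ((ca ρ)^[w.length] c (o + k)) := by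
  induction w generalizing k with
  | nil => exact h k h2
  | cons x w ih =>
    obtain ⟨k, rfl⟩ : ∃ k', k = k' + 1 := ⟨k - 1, by simp at h1; omega⟩
    simp only [List.length_cons] at h1
    rw [List.map_cons, List.prod_cons, Equiv.Perm.mul_apply,
      gen_get ρ x _ k _ _ (ih k (by omega) (by omega)) (ih (k + 1) (by omega) h2),
      List.length_cons, iterate_succ_apply', ca]
    rw [show o + ((k + 1 : ℕ) : ℤ) - 1 = o + k by push_cast; ring]

theorem prod_length (w u : List α) : ((w.map (gen ρ)).prod u).length = u.length := by
  induction w with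
  | nil => rfl
  | cons x w ih => rw [List.map_cons, List.prod_cons, Equiv.Perm.mul_apply, gen_length, ih]

theorem prod_take (w u : List α) (n : ℕ) :
    ((w.map (gen ρ)).prod u).take n = (w.map (gen ρ)).prod (u.take n) := by
  induction w with
  | nil => rfl
  | cons x w ih =>
    rw [List.map_cons, List.prod_cons, Equiv.Perm.mul_apply, gen_take, ih, Equiv.Perm.mul_apply]

theorem per_of_finite [Nonempty α] (h : Finite (Subgroup.closure (Set.range (gen ρ)))) :
    ∃ P, 0 < P ∧ ∀ c, (ca ρ)^[P] c = c := by
  obtain ⟨x⟩ := ‹Nonempty α›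
  let g : Subgroup.closure (Set.range (gen ρ)) := ⟨gen ρ x, Subgroup.subset_closure ⟨x, rfl⟩⟩
  refine ⟨orderOf g, orderOf_pos g, fun c => funext fun i => ?_⟩
  have h1 : gen ρ x ^ orderOf g = 1 := congrArg Subtype.val (pow_orderOf_eq_one g)
  generalize orderOf g = P at h1
  have h2 := prod_get ρ (List.replicate P x) (List.ofFn (fun k : Fin (P + 1) => c (i - P + k)))
    c (i - P) (by
      intro k hk
      rw [List.length_ofFn] at hk
      rw [List.getElem?_ofFn, dif_pos hk]) P (by simp) (by simp)
  rw [List.map_replicate, List.prod_replicate, h1, List.length_replicate, Equiv.Perm.one_apply,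
    List.getElem?_ofFn, dif_pos (Nat.lt_succ_self P)] at h2
  simp only [sub_add_cancel, Option.some.injEq] at h2
  exact h2.symm

theorem finite_of_per [Finite α] [Nonempty α] (P : ℕ) (hP : 0 < P) (h : ∀ c, (ca ρ)^[P] c = c) :
    Finite (Subgroup.closure (Set.range (gen ρ))) := by
  obtain ⟨x0⟩ := ‹Nonempty α›
  let K : Set (Equiv.Perm (List α)) := {g | (∀ u, (g u).length = u.length) ∧
    (∀ u, (g u).take P = g (u.take P)) ∧ ∀ u k, P ≤ k → (g u)[k]? = u[k]?}
  have hK : K.Finite := by
    have : Finite {u : List α | u.length ≤ P} := List.finite_length_le α P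
    let φ : K → ({u : List α | u.length ≤ P} → {u : List α | u.length ≤ P}) :=
      fun g u => ⟨g.1 u.1, by rw [Set.mem_ofPred_eq, g.2.1]; exact u.2⟩
    apply Finite.of_injective φ
    intro g g' hg
    refine Subtype.ext (Equiv.ext fun u => List.ext_getElem? fun k => ?_)
    by_cases hk : P ≤ k
    · rw [g.2.2.2 u k hk, g'.2.2.2 u k hk]
    · have h1 := congrArg Subtype.val (congrFun hg ⟨u.take P, List.length_take_le _ _⟩)
      simp only [φ] at h1
      rw [← g.2.2.1, ← g'.2.2.1] at h1
      have h2 := congrArg (fun l => l[k]?) h1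
      simpa only [List.getElem?_take_of_lt (not_le.mp hk)] using h2
  have hmul : ∀ g ∈ K, ∀ g' ∈ K, g * g' ∈ K := by
    intro g hg g' hg'
    refine ⟨fun u => ?_, fun u => ?_, fun u k hk => ?_⟩
    · rw [Equiv.Perm.mul_apply, hg.1, hg'.1]
    · rw [Equiv.Perm.mul_apply, hg.2.1, hg'.2.1, Equiv.Perm.mul_apply]
    · rw [Equiv.Perm.mul_apply, hg.2.2 _ _ hk, hg'.2.2 _ _ hk]
  have hw : ∀ w : List α, w.length = P → (w.map (gen ρ)).prod ∈ K := by
    intro w hw
    refine ⟨prod_length ρ w, fun u => prod_take ρ w u P, fun u k hk => ?_⟩
    by_cases h1 : k < u.length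
    · have h2 : ∀ k, k < u.length → u[k]? = some (u.getD ((0 : ℤ) + k).toNat x0) := by
        intro k hk
        rw [zero_add, Int.toNat_natCast, List.getD_eq_getElem _ _ hk, List.getElem?_eq_getElem hk]
      rw [prod_get ρ w u (fun i => u.getD i.toNat x0) 0 h2 k (by omega) h1, hw, h, h2 k h1]
    · rw [List.getElem?_eq_none (by rw [prod_length]; omega), List.getElem?_eq_none (by omega)]
  let R : Set (Equiv.Perm (List α)) := (fun w : List α => (w.map (gen ρ)).prod) ''
    {w : List α | w.length ≤ P}
  have hR : R.Finite := (List.finite_length_le α P).image _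
  have hall : ∀ n, ∀ w : List α, w.length = n → (w.map (gen ρ)).prod ∈ R * K := by
    intro n
    induction n using Nat.strong_induction_on with
    | _ n ih =>
      intro w hn
      by_cases h1 : n ≤ P
      · exact ⟨_, ⟨w, by rw [Set.mem_ofPred_eq, hn]; exact h1, rfl⟩, 1,
          ⟨fun _ => rfl, fun _ => rfl, fun _ _ _ => rfl⟩, mul_one _⟩
      · obtain ⟨r, hr, k, hk, e⟩ := ih (n - P) (by omega) (w.take (n - P)) (by simp; omega)
        refine ⟨r, hr, _, hmul k hk _ (hw (w.drop (n - P)) (by simp; omega)), ?_⟩
        simp only at e ⊢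
        rw [← mul_assoc, e, ← List.prod_append, ← List.map_append, List.take_append_drop]
  have hM : (Submonoid.closure (Set.range (gen ρ)) : Set (Equiv.Perm (List α))).Finite := by
    refine (hR.mul hK).subset fun g hg => ?_
    obtain ⟨l, h1, rfl⟩ := Submonoid.exists_list_of_mem_closure hg
    obtain ⟨w, rfl⟩ : ∃ w : List α, w.map (gen ρ) = l := by
      clear hg
      induction l with
      | nil => exact ⟨[], rfl⟩
      | cons y l ih =>
        obtain ⟨w, rfl⟩ := ih (fun y hy => h1 y (List.mem_cons_of_mem _ hy))
        obtain ⟨x, rfl⟩ := h1 y (by simp)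
        exact ⟨x :: w, rfl⟩
    exact hall _ w rfl
  refine Set.Finite.to_subtype (hM.subset fun g hg => ?_)
  induction hg using Subgroup.closure_induction with
  | mem g hg => exact Submonoid.subset_closure hg
  | one => exact one_mem _
  | mul g g' _ _ h1 h2 => exact mul_mem h1 h2
  | inv g _ h1 =>
    have h2 : Submonoid.powers g ≤ Submonoid.closure (Set.range (gen ρ)) :=
      Submonoid.powers_le.mpr h1
    have h3 : IsOfFinOrder g := finite_powers.mp (hM.subset h2)
    exact h2 (h3.mem_powers_iff_mem_zpowers.mpr (inv_mem (Subgroup.mem_zpowers g)))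

end

end Pool.Agent.Lib.MP_322aed_lc
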