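import Pool.Agent.Lib.MP_322aed_lc.Sim

/-!
Periodicity of the automaton, level by level.
-/

namespace Pool.Agent.Lib.MP_322aed_lc

open Function

theorem act_not_ok {Φ I W : Type} (fv : Φ → W → ZMod 2) (iv : I → W → W) (o : Op Φ I)
    (ok ok' : Prop) (pl pl' x : Lanes × W) (h : ¬ ok) (h' : ¬ ok') :
    act fv iv o ok pl x = act fv iv o ok' pl' x := by
  unfold act
  split <;> simp [h, h']

theorem act_invol {Φ I W : Type} (fv : Φ → W → ZMod 2) (iv : I → W → W)
    (hiv : ∀ ι, Involutive (iv ι)) (o : Op Φ I) (ok : Prop) (pl : Lanes × W) :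
    Involutive (act fv iv o ok pl) := by
  have e2 : ∀ a : ZMod 3, a + 2 ≠ a := by decide
  rintro ⟨x, w⟩
  cases o with
  | load a f => by_cases h : ok <;> simp [act, h, tg_tg, z2_add_self, tg_zero]
  | relay a => by_cases h : ok <;> simp [act, h, tg_tg, z2_add_self, tg_zero]
  | toff a =>
    have h1 : ∀ v, tg x a v (a + 1) = x (a + 1) := by
      intro v; simp [tg]
    have h2 : ∀ v, tg x a v (a + 2) = x (a + 2) := by
      intro v; simp [tg, Pi.single_eq_of_ne (e2 a)]
    by_cases h : ok <;> simp [act, h, h1, h2, tg_tg, z2_add_self, tg_zero]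
  | ctl ι => by_cases h : ok <;> by_cases h' : x 0 = 1 <;> simp [act, h, h', hiv ι w]
  | alw ι => simp [act, hiv ι w]

namespace Sys

variable {Lab : Type} [Fintype Lab] {cls : Lab → ZMod 3} {Lh : Lab → Lab → Lab → Prop}
  (S : Sys cls Lh)

/-- The link to the left of cell `i` is sound. -/
def ok (ex : ℤ → Prop) (c : ℤ → S.Cell) (i : ℤ) : Prop := S.okc (c (i - 1)) (c i) ∧ ex i

theorem iter_hd (ex : ℤ → Prop) (c : ℤ → S.Cell) (t : ℕ) (i : ℤ) :
    ((S.F ex)^[t] c i).1 = ((c i).1.1, (c i).1.2 + t) := by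
  induction t with
  | zero => simp
  | succ t ih =>
    rw [iterate_succ_apply']
    simp only [F, stp, ih]
    push_cast
    rw [add_assoc]

theorem iter_lab (ex : ℤ → Prop) (c : ℤ → S.Cell) (t : ℕ) (i : ℤ) :
    ((S.F ex)^[t] c i).2.2.1.1 = (c i).2.2.1.1 := by
  induction t with
  | zero => simp
  | succ t ih => rw [iterate_succ_apply']; simp only [F, stp_lab, ih]

theorem iter_ok (ex : ℤ → Prop) (c : ℤ → S.Cell) (t : ℕ) (i : ℤ) :
    S.ok ex ((S.F ex)^[t] c) i ↔ S.ok ex c i := by
  simp only [ok, okc, iter_hd, iter_lab, add_left_inj]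

theorem stp_inj_aux (ex : Prop) (p a b : S.Cell) (h : S.stp ex p a = S.stp ex p b) : a = b := by
  have h1 : a.1 = b.1 := by
    have := congrArg Prod.fst h
    simp only [stp, Prod.mk.injEq, add_left_inj] at this
    exact Prod.ext this.1 this.2
  have h2 := congrArg Prod.snd h
  simp only [stp, okc, h1] at h2
  refine Prod.ext h1 ?_
  split_ifs at h2
  · exact (act_invol _ _ S.iv_invol _ _ _).injective h2
  · exact h2

variable (hL : ∀ a b z, Lh a b z → cls b = cls a + 1)

include hL in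
theorem F_inj (ex : ℤ → Prop) (a b : ℤ → S.Cell) (i : ℤ) (h1 : S.F ex a i = S.F ex b i)
    (h2 : S.F ex a (i - 1) = S.F ex b (i - 1)) : a i = b i := by
  have hd : ∀ j, S.F ex a j = S.F ex b j → (a j).1 = (b j).1 := by
    intro j h
    have := congrArg Prod.fst h
    simp only [F, stp, Prod.mk.injEq, add_left_inj] at this
    exact Prod.ext this.1 this.2
  have hz : (a (i - 1)).2.2.1.1 = (b (i - 1)).2.2.1.1 := by
    have := congrArg (fun x => x.2.2.1.1) h2
    simpa only [F, stp_lab] using this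
  have e1 := hd _ h1
  have e2 := hd _ h2
  have hok : S.okc (a (i - 1)) (a i) ↔ S.okc (b (i - 1)) (b i) := by
    simp only [okc, e1, e2, hz]
  by_cases ho : S.okc (a (i - 1)) (a i) ∧ ex i
  · by_cases hc : cls (a i).1.1 = (S.gate (a i).1.2).1
    · have hn : ¬ cls (a (i - 1)).1.1 = (S.gate (a (i - 1)).1.2).1 := by
        rw [ho.1.2, ← hc, hL _ _ _ ho.1.1]
        simp
      have e3 : a (i - 1) = b (i - 1) := by
        have := congrArg Prod.snd h2
        simp only [F, stp, ← e2, hn, if_false] at this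
        exact Prod.ext e2 this
      simp only [F, e3] at h1
      exact S.stp_inj_aux _ _ _ _ h1
    · have := congrArg Prod.snd h1
      simp only [F, stp, ← e1, hc, if_false] at this
      exact Prod.ext e1 this
  · apply S.stp_inj_aux False (a i)
    rw [← S.stp_not_ok (ex i) False (a (i - 1)) _ _ ho (by simp),
      ← S.stp_not_ok (ex i) False (b (i - 1)) _ _ (by rw [← hok]; exact ho) (by simp)]
    exact h1

include hL in
theorem iter_inj (ex : ℤ → Prop) (x : ℤ) (t : ℕ) (a b : ℤ → S.Cell)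
    (h : ∀ y ≤ x, (S.F ex)^[t] a y = (S.F ex)^[t] b y) : ∀ y ≤ x, a y = b y := by
  induction t with
  | zero => exact h
  | succ t ih =>
    apply ih
    intro y hy
    simp only [iterate_succ_apply'] at h
    exact S.F_inj hL ex _ _ y (h y hy) (h _ (by omega))

/-- The first `t` gates from clock value zero. -/
noncomputable def arun (al : ℤ → Prop) (s : ℤ → Lanes × S.W) : ℕ → ℤ → Lanes × S.W
  | 0 => s
  | t + 1 => exec S.fv S.iv al (S.gate t) (arun al s t)

theorem arun_take (al : ℤ → Prop) (s : ℤ → Lanes × S.W) (t : ℕ) (ht : t ≤ S.k + 2) :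
    S.arun al s t = run S.fv S.iv al ((prog cls Lh S.code).take t) s := by
  induction t with
  | zero => rfl
  | succ t ih =>
    have h1 : t < (prog cls Lh S.code).length := by rw [length_prog]; omega
    rw [arun, ih (by omega), List.take_succ_eq_append_getElem h1, run_append, gate,
      ZMod.val_natCast_of_lt (by omega), List.getD_eq_getElem _ _ h1]
    rfl

theorem arun_add (al : ℤ → Prop) (s : ℤ → Lanes × S.W) (t : ℕ) :
    S.arun al s (S.k + 2 + t) = S.arun al (run S.fv S.iv al (prog cls Lh S.code) s) t := by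
  induction t with
  | zero =>
    rw [add_zero, arun_take _ _ _ _ le_rfl, ← length_prog, List.take_length]; rfl
  | succ t ih =>
    rw [← add_assoc, arun, ih, arun]
    congr 2
    rw [Nat.cast_add, ZMod.natCast_self, zero_add]

theorem arun_mul (al : ℤ → Prop) (n : ℕ) (s : ℤ → Lanes × S.W) (t : ℕ) :
    S.arun al s ((S.k + 2) * n + t) =
      S.arun al ((run S.fv S.iv al (prog cls Lh S.code))^[n] s) t := by
  induction n generalizing s with
  | zero => simp
  | succ n ih =>
    rw [show (S.k + 2) * (n + 1) + t = S.k + 2 + ((S.k + 2) * n + t) by ring, arun_add, ih]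
    rfl

theorem arun_congr (al K : ℤ → Prop) (hK : ∀ i, K i → al i → K (i - 1))
    (s s' : ℤ → Lanes × S.W) (h : ∀ i, K i → s i = s' i) (t : ℕ) (i : ℤ) (hi : K i) :
    S.arun al s t i = S.arun al s' t i := by
  induction t generalizing i with
  | zero => exact h i hi
  | succ t ih =>
    simp only [arun, exec, ih i hi]
    split_ifs
    · by_cases ha : al i
      · rw [ih _ (hK i hi ha)]
      · exact act_not_ok _ _ _ _ _ _ _ _ ha ha
    · rfl

theorem iter_arun (ex : ℤ → Prop) (c : ℤ → S.Cell) (o : ℤ) (al K : ℤ → Prop)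
    (hK : ∀ i, K i → al i → K (i - 1))
    (h : ∀ i, K i → cls (c (o + i)).1.1 = i ∧ (c (o + i)).1.2 = 0 ∧ (al i ↔ S.ok ex c (o + i)))
    (t : ℕ) (i : ℤ) (hi : K i) :
    ((S.F ex)^[t] c (o + i)).2 = S.arun al (fun i => (c (o + i)).2) t i := by
  induction t generalizing i with
  | zero => rfl
  | succ t ih =>
    obtain ⟨h1, h2, h3⟩ := h i hi
    have h4 := S.iter_ok ex c t (o + i)
    rw [← h3, ok] at h4
    rw [iterate_succ_apply']
    simp only [F, stp, arun, exec, iter_hd, h1, h2, zero_add, ih i hi]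
    split_ifs
    · by_cases ha : al i
      · rw [← ih _ (hK i hi ha), propext h4, add_sub_assoc]
      · exact act_not_ok _ _ _ _ _ _ _ _ (by rw [h4]; exact ha) ha
    · rfl

variable (Leg : ℕ → (ℤ → Lab) → ℤ → ℤ → Prop)

/-- Every sound run ending at or before `x` carries the labels of level `j`. -/
def Good (j : ℕ) (ex : ℤ → Prop) (c : ℤ → S.Cell) (x : ℤ) : Prop :=
  ∀ a b, a < b → b ≤ x → (∀ i, a < i → i ≤ b → S.ok ex c i) → Leg j (fun i => (c i).1.1) a b

/-- Rows of level `j` have period `P`. -/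
def Per (P j : ℕ) : Prop :=
  ∀ ex c x, S.Good Leg j ex c x → ∀ y ≤ x, (S.F ex)^[P] c y = c y

theorem per_base (J : ℕ) (hJ : ∀ l a b z, a < b → Leg J l a b → ¬ Lh (l a) (l (a + 1)) z) :
    ∃ P, 0 < P ∧ S.Per Leg P J := by
  classical
  let g : S.Cell → S.Cell := fun x => S.stp False x x
  have hg : Injective g := by
    intro a b h
    apply S.stp_inj_aux False a
    rw [S.stp_not_ok False False a b b (by simp) (by simp)]
    exact h
  let e : Equiv.Perm S.Cell := Equiv.ofBijective g (Finite.injective_iff_bijective.mp hg)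
  refine ⟨orderOf e, orderOf_pos e, ?_⟩
  intro ex c x hG y hy
  have hn : ¬ S.ok ex c y := by
    intro h
    have := hG (y - 1) y (by omega) hy (fun i h1 h2 => by rwa [show i = y by omega])
    have h2 := hJ _ _ _ (c (y - 1)).2.2.1.1 (by omega) this
    simp only [sub_add_cancel] at h2
    exact h2 h.1.1
  have key : ∀ t, (S.F ex)^[t] c y = (e ^ t) (c y) := by
    intro t
    induction t with
    | zero => rfl
    | succ t ih =>
      rw [iterate_succ_apply', pow_succ', Equiv.Perm.mul_apply, ← ih]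
      exact S.stp_not_ok _ _ _ _ _ ((S.iter_ok ex c t y).not.mpr hn) (by simp)
  rw [key, pow_orderOf_eq_one]
  rfl

variable (hstep : ∀ (j : ℕ) (l z : ℤ → Lab) (o a b : ℤ), a < b → cls (l (o + 3 * a)) = 0 →
  (∀ i, o + 3 * a < i → i ≤ o + 3 * b → Lh (l (i - 1)) (l i) (z (i - 1))) →
  Leg j l (o + 3 * a) (o + 3 * b) → Leg (j + 1) (fun X => z (o + 3 * X)) a b)

include hL hstep in
theorem per_phase (P j : ℕ) (hP : S.Per Leg P (j + 1)) (ex : ℤ → Prop) (c : ℤ → S.Cell) (y : ℤ)
    (hG : S.Good Leg j ex c y) (h0 : (c y).1.2 = 0) (u : ℕ) :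
    (S.F ex)^[(S.k + 2) * P + u] c y = (S.F ex)^[u] c y := by
  obtain ⟨o, ho⟩ : ∃ o : ℤ, y = o + (cls (c y).1.1).val := ⟨y - (cls (c y).1.1).val, by ring⟩
  have hv := ZMod.val_lt (cls (c y).1.1)
  let K : ℤ → Prop := fun i => o + i ≤ y ∧ ∀ j, o + i < j → j ≤ y → S.ok ex c j
  let al : ℤ → Prop := fun i => ∀ j, o + i ≤ j → j ≤ y → S.ok ex c j
  have hal : ∀ i, al i → al (i + 1) := fun i h j h1 h2 => h j (by omega) h2
  have hK : ∀ i, K i → al i → K (i - 1) := fun i h1 h2 =>
    ⟨by have := h1.1; omega, fun j h3 h4 => h2 j (by omega) h4⟩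
  have hrun : ∀ n : ℕ, (∀ j, y - n < j → j ≤ y → S.ok ex c j) →
      cls (c (y - n)).1.1 = cls (c y).1.1 - n ∧ (c (y - n)).1.2 = 0 := by
    intro n
    induction n with
    | zero => intro _; simp [h0]
    | succ n ih =>
      intro h
      obtain ⟨h1, h2⟩ := ih (fun j h3 h4 => h j (by push_cast; omega) h4)
      obtain ⟨⟨h3, h4⟩, -⟩ := h (y - n) (by push_cast; omega) (by omega)
      have h5 := hL _ _ _ h3
      rw [show y - ((n + 1 : ℕ) : ℤ) = y - n - 1 by push_cast; ring, h4]
      refine ⟨?_, h2⟩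
      push_cast
      linear_combination h1 - h5
  have hc : ∀ i, K i →
      cls (c (o + i)).1.1 = i ∧ (c (o + i)).1.2 = 0 ∧ (al i ↔ S.ok ex c (o + i)) := by
    intro i hi
    obtain ⟨n, hn⟩ : ∃ n : ℕ, o + i = y - n := ⟨(y - (o + i)).toNat, by have := hi.1; omega⟩
    obtain ⟨h1, h2⟩ := hrun n (fun j h3 h4 => hi.2 j (by omega) h4)
    rw [← hn] at h1 h2
    refine ⟨?_, h2, fun h => h _ le_rfl hi.1, fun h j h3 h4 => ?_⟩
    · have : i = ((cls (c y).1.1).val : ℤ) - n := by omega
      rw [h1, this]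
      simp
    · rcases h3.eq_or_lt with h5 | h5
      · rw [← h5]; exact h
      · exact hi.2 j h5 h4
  have hy : K (cls (c y).1.1).val := ⟨by omega, fun j h1 h2 => by omega⟩
  let s : ℤ → Lanes × S.W := fun i => (c (o + i)).2
  have hgood : S.Good Leg (j + 1) (fun X => al (3 * X - 2)) (S.dec s) 0 := by
    intro a b hab hb h
    have h1 : al (3 * (a + 1) - 2) := (h (a + 1) (by omega) (by omega)).2
    have h2 : ∀ i, o + 3 * a < i → i ≤ o + 3 * b → S.ok ex c i :=
      fun i h3 h4 => h1 i (by omega) (by omega)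
    have h3 := hG _ _ (by omega) (by omega) h2
    have h4 := (hc (3 * a) ⟨by omega, fun j h5 h6 => h1 j (by omega) h6⟩).1
    rw [c0] at h4
    exact hstep j (fun i => (c i).1.1) (fun i => (c i).2.2.1.1) o a b hab h4
      (fun i h5 h6 => (h2 i h5 h6).1.1) h3
  have hfix : ∀ i, K i → (run S.fv S.iv al (prog cls Lh S.code))^[P] s i = s i := by
    intro i hi
    have hf : ∀ X, X ≤ 0 → al (3 * X + 1) → (S.FF al)^[P] (S.dec s) X = S.dec s X := by
      intro X h1 h2
      rw [S.FF_full al _ _ _ h2]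
      exact hP _ _ 0 hgood X h1
    have hf2 : ∀ X, X ≤ 0 → ((S.FF al)^[P] (S.dec s) X).2 = (S.dec s X).2 := by
      intro X h1
      by_cases h2 : al (3 * X + 1)
      · rw [hf X h1 h2]
      · exact S.FF_dead al _ _ _ h2
    conv_lhs => rw [← S.enc_dec s, S.run_prog_iter al hal]
    have hi1 := hi.1
    induction i using tri with
    | h0 X =>
      rw [enc0, hf X (by omega) (fun j h1 h2 => hi.2 j (by omega) h2)]; rfl
    | h1 X => rw [enc1, hf2 X (by omega)]; rfl
    | h2 X => rw [enc2, hf2 X (by omega)]; rfl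
  refine Prod.ext ?_ ?_
  · rw [iter_hd, iter_hd]
    congr 2
    rw [Nat.cast_add, Nat.cast_mul, ZMod.natCast_self, zero_mul, zero_add]
  · rw [ho, S.iter_arun ex c o al K hK hc _ _ hy, S.iter_arun ex c o al K hK hc _ _ hy, arun_mul]
    exact S.arun_congr al K hK _ _ hfix u _ hy

include hL hstep in
theorem per_step (P j : ℕ) (hP : S.Per Leg P (j + 1)) : S.Per Leg ((S.k + 2) * P) j := by
  intro ex c x hG
  apply S.iter_inj hL ex x (S.k + 2)
  intro y hy
  obtain ⟨t, ht⟩ : ∃ t : ℕ, t = (-(c y).1.2).val := ⟨_, rfl⟩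
  have h1 : t < S.k + 2 := by rw [ht]; exact ZMod.val_lt _
  obtain ⟨u, hu⟩ : ∃ u, S.k + 2 = u + t := ⟨S.k + 2 - t, by omega⟩
  have h2 := S.per_phase hL Leg hstep P j hP ex ((S.F ex)^[t] c) y
    (by
      intro a b hab hb h
      simp only [iter_hd]
      exact hG a b hab (hb.trans hy) (fun i h1 h2 => (S.iter_ok ex c t i).mp (h i h1 h2)))
    (by rw [iter_hd, ht]; simp) u
  rw [← iterate_add_apply, ← iterate_add_apply] at h2
  rw [← iterate_add_apply]
  convert h2 using 2
  omega

include hL hstep in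
theorem per_all (J : ℕ) (hJ : ∀ l a b z, a < b → Leg J l a b → ¬ Lh (l a) (l (a + 1)) z) :
    ∃ P, 0 < P ∧ S.Per Leg P 0 := by
  have : ∀ n j, j + n = J → ∃ P, 0 < P ∧ S.Per Leg P j := by
    intro n
    induction n with
    | zero => intro j hj; rw [add_zero] at hj; subst hj; exact S.per_base Leg j hJ
    | succ n ih =>
      intro j hj
      obtain ⟨P, h1, h2⟩ := ih (j + 1) (by omega)
      exact ⟨_, by positivity, S.per_step hL Leg hstep P j h2⟩
  exact this J 0 (by omega)

variable (row : ℕ → ℤ → Lab)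

/-- Perfect rows nested to depth `d`. -/
def cfg : ℕ → ℕ → ℤ → S.Cell
  | 0, j => fun i => ((row j i, 0), (0, ((row (j + 1) (i / 3), 0), 0)))
  | d + 1, j => fun i => ((row j i, 0), S.enc (fun _ => (0, ((row 0 0, 0), 0))) (cfg d (j + 1)) i)

theorem cfg_hd (d j : ℕ) (i : ℤ) : (S.cfg row d j i).1 = (row j i, 0) := by
  cases d <;> rfl

theorem cfg_dvd (hc : ∀ j i, cls (row j i) = i)
    (hrow : ∀ j i z, ((i - 1) % 3 = 0 → z = row (j + 1) ((i - 1) / 3)) →
      Lh (row j (i - 1)) (row j i) z) (d j P : ℕ)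
    (h : (S.F (fun _ => True))^[P] (S.cfg row d j) = S.cfg row d j) : (S.k + 2) ^ (d + 1) ∣ P := by
  induction d generalizing j P with
  | zero =>
    have := S.iter_hd (fun _ => True) (S.cfg row 0 j) P 0
    rw [h, cfg_hd] at this
    simp only [Prod.mk.injEq, true_and, zero_add] at this
    rw [zero_add, pow_one]
    exact (ZMod.natCast_eq_zero_iff _ _).mp this.symm
  | succ d ih =>
    have := S.iter_hd (fun _ => True) (S.cfg row (d + 1) j) P 0
    rw [h, cfg_hd] at this
    simp only [Prod.mk.injEq, true_and, zero_add] at this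
    obtain ⟨P', rfl⟩ := (ZMod.natCast_eq_zero_iff _ _).mp this.symm
    rw [pow_succ']
    apply Nat.mul_dvd_mul_left
    apply ih (j + 1)
    have key := S.iter_arun (fun _ => True) (S.cfg row (d + 1) j) 0 (fun _ => True) (fun _ => True)
      (fun _ _ _ => trivial) (by
        intro i _
        rw [zero_add, cfg_hd]
        refine ⟨hc j i, rfl, fun _ => ⟨⟨?_, ?_⟩, trivial⟩, fun _ => trivial⟩
        · rw [cfg_hd, cfg_hd]
          apply hrow
          intro h3
          simp only [cfg, enc, h3, if_true, cfg_hd]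
        · rw [cfg_hd, cfg_hd]) ((S.k + 2) * P' + 0)
    rw [arun_mul, add_zero, h] at key
    simp only [zero_add, cfg, arun] at key
    have key2 := funext (fun i => key i trivial)
    have e := S.run_prog_iter (fun _ => True) (fun _ _ => trivial)
      (fun _ => (0, ((row 0 0, 0), 0))) (S.cfg row d (j + 1)) P'
    have key3 := congrArg S.dec (key2.trans e)
    rw [dec_enc, dec_enc] at key3
    funext X
    rw [← S.FF_full (fun _ => True) _ _ _ trivial, ← key3]

theorem cfg_not_per (hc : ∀ j i, cls (row j i) = i)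
    (hrow : ∀ j i z, ((i - 1) % 3 = 0 → z = row (j + 1) ((i - 1) / 3)) →
      Lh (row j (i - 1)) (row j i) z) (P : ℕ) (hP : 0 < P) :
    (S.F (fun _ => True))^[P] (S.cfg row P 0) ≠ S.cfg row P 0 := by
  intro h
  have h1 := Nat.le_of_dvd hP (S.cfg_dvd row hc hrow P 0 P h)
  have h2 : P + 1 < (S.k + 2) ^ (P + 1) := Nat.lt_pow_self (by omega)
  omega

end Sys

end Pool.Agent.Lib.MP_322aed_lc
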