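import Pool.Agent.Lib.MP_1ebeae_al.Machine

/-!
Labels coding the configurations of a counter machine: level `j` carries step `j`, and a
register with value `v` is a marker of period `3 ^ v`.
-/

namespace Pool.Agent.Lib.MP_322aed_lc

open Function Pool.Agent.Lib.MP_1ebeae_al

/-- Class, state, result of the zero test, markers, counters of markers. -/
abbrev MLab (Q ι : Type) := ZMod 3 × Q × Bool × (ι → Bool) × (ι → ZMod 9)

theorem ediv_succ (x p : ℤ) (hp : 0 < p) :
    (x + 1) / p = x / p + if p ∣ x + 1 then 1 else 0 := by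
  have h1 := Int.emod_add_mul_ediv x p
  have h2 := Int.emod_nonneg x hp.ne'
  have h3 := Int.emod_lt_of_pos x hp
  split_ifs with h
  · obtain ⟨k, hk⟩ := h
    have := ((Int.ediv_emod_unique (a := x) (q := k - 1) (r := p - 1) hp).mpr
      ⟨by linarith, by omega, by omega⟩).1
    rw [this, hk, Int.mul_ediv_cancel_left _ hp.ne']; ring
  · have h4 : x % p + 1 ≠ p := by
      intro h4
      exact h ⟨x / p + 1, by linarith⟩
    rw [add_zero]
    exact ((Int.ediv_emod_unique (a := x + 1) (q := x / p) (r := x % p + 1) hp).mpr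
      ⟨by linarith, by omega, by omega⟩).1

theorem dvd_val (μ : ℕ) (hμ : μ = 1 ∨ μ = 3 ∨ μ = 9) (n : ℤ) :
    μ ∣ ((n : ZMod 9)).val ↔ (μ : ℤ) ∣ n := by
  rw [← Int.natCast_dvd_natCast, ZMod.val_intCast]
  rcases hμ with rfl | rfl | rfl <;> push_cast <;> omega

theorem mul_dvd_iff (μ p x c : ℤ) (hp : 0 < p) :
    (p ∣ x ∧ μ ∣ c + x / p) ↔ μ * p ∣ x + c * p := by
  constructor
  · rintro ⟨⟨k, rfl⟩, h⟩
    rw [Int.mul_ediv_cancel_left _ hp.ne'] at h
    obtain ⟨l, hl⟩ := h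
    exact ⟨l, by linear_combination p * hl⟩
  · rintro ⟨l, hl⟩
    have : x = p * (μ * l - c) := by linear_combination hl
    subst this
    refine ⟨dvd_mul_right _ _, ?_⟩
    rw [Int.mul_ediv_cancel_left _ hp.ne']
    exact ⟨l, by ring⟩

theorem pow_dvd_two (v : ℕ) (x : ℤ) : ((3 : ℤ) ^ v ∣ x ∧ (3 : ℤ) ^ v ∣ x + 1) ↔ v = 0 := by
  constructor
  · rintro ⟨h1, h2⟩
    have h3 := (dvd_add_right h1).mp h2
    cases v with
    | zero => rfl
    | succ v =>
      have := dvd_trans (dvd_pow_self (3 : ℤ) (Nat.succ_ne_zero v)) h3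
      omega
  · rintro rfl; simp

variable {Q ι : Type} [DecidableEq ι] (M : Mach Q ι)

/-- The modulus of the marker counter. -/
def mu (q : Q) (β : Bool) (r : ι) : ℕ :=
  if r = M.reg q ∧ M.isInc q = true then 9
  else if r = M.reg q ∧ M.isDec q = true ∧ β = false then 1 else 3

/-- A marker that is passed to the next level. -/
def carry (a : MLab Q ι) (r : ι) : Prop :=
  a.2.2.2.1 r = true ∧ mu M a.2.1 a.2.2.1 r ∣ (a.2.2.2.2 r).val

/-- The rule between a label `a`, the label `b` to its right and the label `z` above `a`. -/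
def MLh (a b z : MLab Q ι) : Prop :=
  b.1 = a.1 + 1 ∧ b.2.1 = a.2.1 ∧ b.2.2.1 = a.2.2.1 ∧ a.2.1 ≠ M.halt ∧
  (a.2.2.1 = true ↔ a.2.2.2.1 (M.reg a.2.1) = true ∧ b.2.2.2.1 (M.reg a.2.1) = true) ∧
  (∀ r, b.2.2.2.2 r = a.2.2.2.2 r + if b.2.2.2.1 r = true then 1 else 0) ∧
  (∀ r, carry M a r → a.1 = 0) ∧
  (a.1 = 0 → z.2.1 = M.next a.2.1 a.2.2.1 ∧ ∀ r, (z.2.2.2.1 r = true ↔ carry M a r))

/-- The labels on `[a, b)` code step `j` of the run on input `n + 1`. -/
def MLeg (n j : ℕ) (l : ℤ → MLab Q ι) (a b : ℤ) : Prop :=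
  (∀ i, a ≤ i → i < b → (l i).2.1 = (M.run n j).1) ∧
  ∀ r, ∃ φ : ℤ, ∀ i, a ≤ i → i < b →
    ((l i).2.2.2.1 r = true ↔ (3 : ℤ) ^ ((M.run n j).2 r) ∣ i - φ)

theorem mu_cases (q : Q) (β : Bool) (r : ι) :
    mu M q β r = 1 ∨ mu M q β r = 3 ∨ mu M q β r = 9 := by
  unfold mu; split_ifs <;> simp

theorem mu_mul (x : Q × (ι → ℕ)) (r : ι) :
    (mu M x.1 (decide (x.2 (M.reg x.1) = 0)) r : ℤ) * 3 ^ (x.2 r) = 3 * 3 ^ ((M.step x).2 r) := by
  simp only [mu, Mach.step]
  by_cases h1 : r = M.reg x.1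
  · subst h1
    by_cases h2 : M.isInc x.1 = true
    · simp [h2, pow_succ]; ring
    · by_cases h3 : M.isDec x.1 = true
      · cases h4 : x.2 (M.reg x.1) with
        | zero => simp [h2, h3]
        | succ v => simp [h2, h3, pow_succ]; ring
      · simp [h2, h3]
  · simp [h1]

theorem mleg_step (n j : ℕ) (l z : ℤ → MLab Q ι) (o a b : ℤ) (hab : a < b)
    (h0 : (l (o + 3 * a)).1 = 0)
    (h : ∀ i, o + 3 * a < i → i ≤ o + 3 * b → MLh M (l (i - 1)) (l i) (z (i - 1)))
    (hl : MLeg M n j l (o + 3 * a) (o + 3 * b)) :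
    MLeg M n (j + 1) (fun X => z (o + 3 * X)) a b := by
  obtain ⟨hq, hm⟩ := hl
  have h' : ∀ i, o + 3 * a ≤ i → i < o + 3 * b → MLh M (l i) (l (i + 1)) (z i) := by
    intro i h1 h2
    have := h (i + 1) (by omega) (by omega)
    rwa [add_sub_cancel_right] at this
  have ind : ∀ P : ℤ → Prop, P (o + 3 * a) →
      (∀ i, o + 3 * a ≤ i → i + 1 < o + 3 * b → P i → P (i + 1)) →
      ∀ i, o + 3 * a ≤ i → i < o + 3 * b → P i := by
    intro P p0 ps i h1
    induction i, h1 using Int.leInduction with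
    | base => intro _; exact p0
    | succ i h1 ih => intro h2; exact ps i h1 h2 (ih (by omega))
  have hcls : ∀ i, o + 3 * a ≤ i → i < o + 3 * b → (l i).1 = ((i - o : ℤ) : ZMod 3) := by
    apply ind
    · rw [h0, add_sub_cancel_left]
      push_cast; rw [show (3 : ZMod 3) = 0 from rfl, zero_mul]
    · intro i h1 h2 h3
      rw [(h' i h1 (by omega)).1, h3]; push_cast; ring
  have hb : ∀ i, o + 3 * a ≤ i → i < o + 3 * b →
      (l i).2.2.1 = decide ((M.run n j).2 (M.reg (M.run n j).1) = 0) := by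
    apply ind
    · obtain ⟨φ, hφ⟩ := hm (M.reg (M.run n j).1)
      have h1 := (h' _ le_rfl (by omega)).2.2.2.2.1
      rw [hq _ le_rfl (by omega), hφ _ le_rfl (by omega), hφ _ (by omega) (by omega),
        show o + 3 * a + 1 - φ = o + 3 * a - φ + 1 by ring, pow_dvd_two] at h1
      rw [Bool.eq_iff_iff, h1]; simp
    · intro i h1 h2 h3
      rw [(h' i h1 (by omega)).2.2.1, h3]
  have hz : ∀ X, a ≤ X → X < b → (l (o + 3 * X)).1 = 0 := by
    intro X h1 h2
    rw [hcls _ (by omega) (by omega), add_sub_cancel_left]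
    push_cast; rw [show (3 : ZMod 3) = 0 from rfl, zero_mul]
  refine ⟨?_, ?_⟩
  · intro X h1 h2
    have := ((h' (o + 3 * X) (by omega) (by omega)).2.2.2.2.2.2.2 (hz X h1 h2)).1
    rw [this, hq _ (by omega) (by omega), hb _ (by omega) (by omega), Mach.run_succ]
    rfl
  · intro r
    obtain ⟨φ, hφ⟩ := hm r
    have hp : (0 : ℤ) < 3 ^ ((M.run n j).2 r) := by positivity
    obtain ⟨c, hc⟩ : ∃ c : ℤ, c = ((l (o + 3 * a)).2.2.2.2 r).val -
      (o + 3 * a - φ) / 3 ^ ((M.run n j).2 r) := ⟨_, rfl⟩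
    have hcnt : ∀ i, o + 3 * a ≤ i → i < o + 3 * b →
        (l i).2.2.2.2 r = ((c + (i - φ) / 3 ^ ((M.run n j).2 r) : ℤ) : ZMod 9) := by
      apply ind
      · rw [hc, sub_add_cancel]; simp
      · intro i h1 h2 h3
        rw [(h' i h1 (by omega)).2.2.2.2.2.1 r, h3, show i + 1 - φ = i - φ + 1 by ring,
          ediv_succ _ _ hp]
        simp only [hφ (i + 1) (by omega) h2, show i + 1 - φ = i - φ + 1 by ring]
        split_ifs <;> push_cast <;> ring
    have hcar : ∀ i, o + 3 * a ≤ i → i < o + 3 * b → (carry M (l i) r ↔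
        3 * 3 ^ ((M.run n (j + 1)).2 r) ∣ i - φ + c * 3 ^ ((M.run n j).2 r)) := by
      intro i h1 h2
      rw [carry, hφ i h1 h2, hcnt i h1 h2, dvd_val _ (mu_cases M _ _ _), mul_dvd_iff _ _ _ _ hp,
        hq i h1 h2, hb i h1 h2, mu_mul, Mach.run_succ]
    have hzm : ∀ X, a ≤ X → X < b →
        ((z (o + 3 * X)).2.2.2.1 r = true ↔ carry M (l (o + 3 * X)) r) := fun X h1 h2 =>
      ((h' (o + 3 * X) (by omega) (by omega)).2.2.2.2.2.2.2 (hz X h1 h2)).2 r
    generalize c * 3 ^ ((M.run n j).2 r) = e at hcar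
    have hp' : (0 : ℤ) < 3 ^ ((M.run n (j + 1)).2 r) := by positivity
    generalize (3 : ℤ) ^ ((M.run n (j + 1)).2 r) = p at hcar hp' ⊢
    by_cases h3 : (3 : ℤ) ∣ φ - e - o
    · obtain ⟨Φ, hΦ⟩ := h3
      refine ⟨Φ, fun X h1 h2 => ?_⟩
      rw [hzm X h1 h2, hcar _ (by omega) (by omega),
        show o + 3 * X - φ + e = 3 * (X - Φ) by linear_combination -hΦ]
      exact mul_dvd_mul_iff_left (by norm_num)
    · have hno : ∀ i, o + 3 * a ≤ i → i < o + 3 * b → ¬ carry M (l i) r := by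
        intro i h1 h2 h4
        have h5 := (h' i h1 h2).2.2.2.2.2.2.1 r h4
        rw [hcls i h1 h2, ZMod.intCast_zmod_eq_zero_iff_dvd] at h5
        have h6 := dvd_trans (dvd_mul_right 3 p) ((hcar i h1 h2).mp h4)
        push_cast at h5
        omega
      have hlt : b - a < p := by
        by_contra h4
        have h5 := Int.emod_nonneg (φ - e - (o + 3 * a)) (show 3 * p ≠ 0 by omega)
        have h6 := Int.emod_lt_of_pos (φ - e - (o + 3 * a)) (show 0 < 3 * p by omega)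
        have h7 := Int.emod_add_mul_ediv (φ - e - (o + 3 * a)) (3 * p)
        apply hno (o + 3 * a + (φ - e - (o + 3 * a)) % (3 * p)) (by omega) (by omega)
        rw [hcar _ (by omega) (by omega)]
        exact ⟨-((φ - e - (o + 3 * a)) / (3 * p)), by linear_combination h7⟩
      refine ⟨b, fun X h1 h2 => ?_⟩
      rw [hzm X h1 h2]
      refine ⟨fun h4 => absurd h4 (hno _ (by omega) (by omega)), fun h4 => ?_⟩
      have := Int.le_of_dvd (show 0 < -(X - b) by omega) ((dvd_neg).mpr h4)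
      omega

theorem mleg_halt (n J : ℕ) (hJ : (M.run n J).1 = M.halt) (l : ℤ → MLab Q ι) (a b : ℤ)
    (z : MLab Q ι) (hab : a < b) (h : MLeg M n J l a b) : ¬ MLh M (l a) (l (a + 1)) z :=
  fun h' => h'.2.2.2.1 ((h.1 a le_rfl hab).trans hJ)

/-- The perfect row of level `j`. -/
def mrow (n j : ℕ) (i : ℤ) : MLab Q ι :=
  ((i : ZMod 3), (M.run n j).1, decide ((M.run n j).2 (M.reg (M.run n j).1) = 0),
    fun r => decide ((3 : ℤ) ^ ((M.run n j).2 r) ∣ i),
    fun r => ((i / 3 ^ ((M.run n j).2 r) : ℤ) : ZMod 9))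

theorem mrow_ok (n : ℕ) (hn : ∀ j, (M.run n j).1 ≠ M.halt) (j : ℕ) (i : ℤ) (z : MLab Q ι)
    (hz : (i - 1) % 3 = 0 → z = mrow M n (j + 1) ((i - 1) / 3)) :
    MLh M (mrow M n j (i - 1)) (mrow M n j i) z := by
  have hcar : ∀ r, carry M (mrow M n j (i - 1)) r ↔ 3 * 3 ^ ((M.run n (j + 1)).2 r) ∣ i - 1 := by
    intro r
    have hp : (0 : ℤ) < 3 ^ ((M.run n j).2 r) := by positivity
    have := mul_dvd_iff (mu M (M.run n j).1
      (decide ((M.run n j).2 (M.reg (M.run n j).1) = 0)) r) _ (i - 1) 0 hp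
    rw [mu_mul, ← Mach.run_succ, zero_add, zero_mul, add_zero] at this
    rw [← this, carry]
    simp only [mrow, decide_eq_true_eq]
    rw [dvd_val _ (mu_cases M _ _ _)]
  refine ⟨by simp [mrow], rfl, rfl, hn j, ?_, ?_, ?_, ?_⟩
  · have := pow_dvd_two ((M.run n j).2 (M.reg (M.run n j).1)) (i - 1)
    rw [sub_add_cancel] at this
    simp only [mrow, decide_eq_true_eq]
    exact this.symm
  · intro r
    have := ediv_succ (i - 1) (3 ^ ((M.run n j).2 r)) (by positivity)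
    rw [sub_add_cancel] at this
    simp only [mrow, decide_eq_true_eq]
    rw [this]
    split_ifs <;> simp
  · intro r h
    rw [hcar] at h
    exact (ZMod.intCast_zmod_eq_zero_iff_dvd _ 3).mpr (dvd_trans (dvd_mul_right _ _) h)
  · intro h
    have h3 : ((3 : ℕ) : ℤ) ∣ i - 1 := (ZMod.intCast_zmod_eq_zero_iff_dvd _ 3).mp h
    rw [hz (by omega)]
    refine ⟨by simp only [mrow, Mach.run_succ]; rfl, fun r => ?_⟩
    rw [hcar]
    obtain ⟨k, hk⟩ := h3
    simp only [mrow, decide_eq_true_eq]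
    rw [hk, show ((3 : ℕ) : ℤ) * k / 3 = k by omega]
    exact (mul_dvd_mul_iff_left (by norm_num)).symm

end Pool.Agent.Lib.MP_322aed_lc
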