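import Pool.Agent.Lib.MP_322aed_lc.Dyn
import Pool.Agent.Lib.MP_322aed_lc.Labels
import Pool.Agent.Lib.MP_322aed_lc.Bridge

/-!
The automaton of an input, its tables, and the reduction.
-/

namespace Pool.Agent.Lib.MP_322aed_lc

open Function Pool.Agent.Lib.MP_1ebeae_al

theorem ca_congr {α β : Type} (e : α ≃ β) (ρ : α → Equiv.Perm α) (P : ℕ) :
    (∀ c, (ca (fun x => e.permCongr (ρ (e.symm x))))^[P] c = c) ↔ ∀ c, (ca ρ)^[P] c = c := by
  have h : Semiconj (fun (c : ℤ → α) i => e (c i)) (ca ρ)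
      (ca (fun x => e.permCongr (ρ (e.symm x)))) := by
    intro c
    funext i
    simp [ca]
  constructor
  · intro h1 c
    have := (h.iterate_right P c).trans (h1 _)
    funext i
    exact e.injective (congrFun this i)
  · intro h1 c
    have := h.iterate_right P (fun i => e.symm (c i))
    rw [h1] at this
    simpa using this.symm

section

variable {Q ι : Type} [Fintype Q] [Fintype ι] [DecidableEq ι] (M : Mach Q ι)

/-- The extra condition on the bottom level. -/
def ex0 (l : MLab Q ι) (b1 b2 : Bool) : Prop :=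
  b1 = true ∧ l.2.1 = M.start ∧ ∀ r, (l.2.2.2.1 r = true ↔ (r = M.input → b2 = true))

variable (S : Sys (Lab := MLab Q ι) Prod.fst (MLh M))

/-- The output maps on cells extended by a counter modulo `N`. -/
noncomputable def rho (N : ℕ) (x : S.Cell × Fin N) : Equiv.Perm (S.Cell × Fin N) :=
  Equiv.ofBijective (fun i => (S.stp (ex0 M x.1.1.1 (decide (i.2.val = (x.2.val + 1) % N))
      (decide (x.2.val = 0))) x.1 i.1, i.2)) (by
    apply Finite.injective_iff_bijective.mp
    rintro ⟨a, u⟩ ⟨b, v⟩ h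
    simp only [Prod.mk.injEq] at h
    obtain ⟨h1, rfl⟩ := h
    rw [S.stp_inj_aux _ _ _ _ h1])

theorem rho_iter (N : ℕ) (c : ℤ → S.Cell × Fin N) (t : ℕ) (i : ℤ) :
    (ca (rho M S N))^[t] c i = ((S.F (fun i => ex0 M (c (i - 1)).1.1.1
      (decide ((c i).2.val = ((c (i - 1)).2.val + 1) % N)) (decide ((c (i - 1)).2.val = 0))))^[t]
      (fun i => (c i).1) i, (c i).2) := by
  induction t generalizing i with
  | zero => rfl
  | succ t ih =>
    rw [iterate_succ_apply', iterate_succ_apply']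
    simp only [ca, rho, Equiv.ofBijective_apply, ih, Sys.F, Sys.iter_hd]

theorem per_of_halt (n J : ℕ) (hJ : (M.run n J).1 = M.halt) :
    ∃ P, 0 < P ∧ ∀ c, (ca (rho M S (3 ^ (n + 1))))^[P] c = c := by
  obtain ⟨P, h1, h2⟩ := S.per_all (fun _ _ _ h => h.1) (MLeg M n) (mleg_step M n) J
    (fun l a b z => mleg_halt M n J hJ l a b z)
  refine ⟨P, h1, fun c => funext fun x => ?_⟩
  rw [rho_iter, h2 _ _ x _ x le_rfl]
  intro a b hab _ h
  have h' : ∀ i, a ≤ i → i < b → ex0 M (c i).1.1.1
      (decide ((c (i + 1)).2.val = ((c i).2.val + 1) % 3 ^ (n + 1))) (decide ((c i).2.val = 0)) := by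
    intro i h3 h4
    have := (h (i + 1) (by omega) (by omega)).2
    simpa only [add_sub_cancel_right] using this
  refine ⟨fun i h3 h4 => (h' i h3 h4).2.1, fun r => ⟨a - (c a).2.val, fun i h3 h4 => ?_⟩⟩
  rw [(h' i h3 h4).2.2 r]
  by_cases hr : r = M.input
  · have key : ∀ i, a ≤ i → i < b → ((c i).2.val : ℤ) = (i - (a - (c a).2.val)) % 3 ^ (n + 1) := by
      intro i h5
      induction i, h5 using Int.leInduction with
      | base =>
        intro _
        rw [sub_sub_cancel, Int.emod_eq_of_lt (by omega) (by exact_mod_cast (c a).2.2)]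
      | succ i h5 ih =>
        intro h6
        have h7 := (h' i h5 (by omega)).1
        rw [decide_eq_true_eq] at h7
        rw [h7]
        push_cast
        rw [ih (by omega), Int.emod_add_emod]
        congr 1; ring
    have e : (M.run n 0).2 r = n + 1 := by simp [Mach.run, hr]
    rw [e, Int.dvd_iff_emod_eq_zero, ← key i h3 h4]
    simp [hr]
  · have e : (M.run n 0).2 r = 0 := by simp [Mach.run, hr]
    simp [e, hr]

theorem not_per (n : ℕ) (hn : ∀ j, (M.run n j).1 ≠ M.halt) (P : ℕ) (hP : 0 < P) :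
    ¬ ∀ c, (ca (rho M S (3 ^ (n + 1))))^[P] c = c := by
  intro h
  have hp : (0 : ℤ) < 3 ^ (n + 1) := by positivity
  have hv : ∀ i : ℤ, (((i % 3 ^ (n + 1)).toNat : ℕ) : ℤ) = i % 3 ^ (n + 1) :=
    fun i => Int.toNat_of_nonneg (Int.emod_nonneg _ hp.ne')
  let c : ℤ → S.Cell × Fin (3 ^ (n + 1)) := fun i => (S.cfg (mrow M n) P 0 i,
    ⟨(i % 3 ^ (n + 1)).toNat, by
      have := Int.emod_lt_of_pos i hp
      rw [← hv] at this
      exact_mod_cast this⟩)
  apply S.cfg_not_per (mrow M n) (fun _ _ => rfl) (mrow_ok M n hn) P hP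
  funext i
  have h1 := congrArg Prod.fst ((rho_iter M S _ c P i).symm.trans (congrFun (h c) i))
  have h2 : (fun i => ex0 M (c (i - 1)).1.1.1
      (decide ((c i).2.val = ((c (i - 1)).2.val + 1) % 3 ^ (n + 1)))
      (decide ((c (i - 1)).2.val = 0))) = fun _ => True := by
    funext i
    simp only [c, Sys.cfg_hd, eq_iff_iff, iff_true]
    refine ⟨?_, rfl, fun r => ?_⟩
    · rw [decide_eq_true_eq, ← Int.natCast_inj]
      push_cast
      rw [hv, hv, Int.emod_add_emod, sub_add_cancel]
    · by_cases hr : r = M.input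
      · have e : (M.run n 0).2 r = n + 1 := by simp [Mach.run, hr]
        simp only [mrow, e, decide_eq_true_eq]
        rw [Int.dvd_iff_emod_eq_zero, ← hv]
        simp [hr]
      · have e : (M.run n 0).2 r = 0 := by simp [Mach.run, hr]
        simp [mrow, e, hr]
  rw [h2] at h1
  exact h1

/-- The automaton of input `n`, on an initial segment of the natural numbers. -/
noncomputable def aut (n : ℕ) (x : Fin (Fintype.card S.Cell * 3 ^ (n + 1))) :
    Equiv.Perm (Fin (Fintype.card S.Cell * 3 ^ (n + 1))) :=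
  (((Fintype.equivFin S.Cell).prodCongr (Equiv.refl _)).trans finProdFinEquiv).permCongr
    (rho M S (3 ^ (n + 1))
      ((((Fintype.equivFin S.Cell).prodCongr (Equiv.refl _)).trans finProdFinEquiv).symm x))

theorem cell_pos : 0 < Fintype.card S.Cell :=
  Fintype.card_pos_iff.mpr ⟨S.cfg (mrow M 0) 0 0 0⟩

theorem aut_finite_iff (n : ℕ) :
    Finite (Subgroup.closure {g : Equiv.Perm (List _) | ∃ x, ⇑g = wordMap id (aut M S n) x}) ↔
      ∃ r, (M.run n r).1 = M.halt := by
  have : Nonempty (Fin (Fintype.card S.Cell * 3 ^ (n + 1))) :=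
    ⟨⟨0, Nat.mul_pos (cell_pos M S) (by positivity)⟩⟩
  rw [gens_eq]
  constructor
  · intro h
    obtain ⟨P, h1, h2⟩ := per_of_finite _ h
    by_contra h3
    exact not_per M S n (fun j hj => h3 ⟨j, hj⟩) P h1 ((ca_congr _ _ P).mp h2)
  · rintro ⟨J, hJ⟩
    obtain ⟨P, h1, h2⟩ := per_of_halt M S n J hJ
    exact finite_of_per _ P h1 ((ca_congr _ _ P).mpr h2)

/-- The fixed finite table behind all the automata. -/
noncomputable def tbl (y : Fin (Fintype.card S.Cell) × Fin (Fintype.card S.Cell) × Bool × Bool) :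
    ℕ :=
  (Fintype.equivFin S.Cell (S.stp (ex0 M ((Fintype.equivFin S.Cell).symm y.1).1.1 y.2.2.1 y.2.2.2)
    ((Fintype.equivFin S.Cell).symm y.1) ((Fintype.equivFin S.Cell).symm y.2.1))).val

/-- An entry of the output table. -/
noncomputable def entry (N x i : ℕ) : ℕ :=
  i % N + N * tbl M S (⟨x / N % _, Nat.mod_lt _ (cell_pos M S)⟩,
    ⟨i / N % _, Nat.mod_lt _ (cell_pos M S)⟩, decide (i % N = (x % N + 1) % N), decide (x % N = 0))

theorem aut_val (n : ℕ) (x i : Fin (Fintype.card S.Cell * 3 ^ (n + 1))) :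
    (aut M S n x i).val = entry M S (3 ^ (n + 1)) x.val i.val := by
  have h : ∀ z : Fin (Fintype.card S.Cell * 3 ^ (n + 1)),
      (⟨z.val / 3 ^ (n + 1) % _, Nat.mod_lt _ (cell_pos M S)⟩ : Fin (Fintype.card S.Cell)) =
        z.divNat := fun z => Fin.ext (Nat.mod_eq_of_lt z.divNat.2)
  rw [entry, h, h]
  rfl

theorem primrec_entry : Primrec fun y : ℕ × ℕ × ℕ => entry M S y.1 y.2.1 y.2.2 := by
  have hN : Primrec fun y : ℕ × ℕ × ℕ => y.1 := Primrec.fst
  have hx : Primrec fun y : ℕ × ℕ × ℕ => y.2.1 := Primrec.fst.comp Primrec.snd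
  have hi : Primrec fun y : ℕ × ℕ × ℕ => y.2.2 := Primrec.snd.comp Primrec.snd
  refine Primrec.nat_add.comp (Primrec.nat_mod.comp hi hN) (Primrec.nat_mul.comp hN
    ((Primrec.dom_finite (tbl M S)).comp (Primrec.pair ?_ (Primrec.pair ?_ (Primrec.pair ?_ ?_)))))
  · exact Primrec.fin_val_iff.mp
      (Primrec.nat_mod.comp (Primrec.nat_div.comp hx hN) (Primrec.const _))
  · exact Primrec.fin_val_iff.mp
      (Primrec.nat_mod.comp (Primrec.nat_div.comp hi hN) (Primrec.const _))
  · exact (Primrec.eq.comp (Primrec.nat_mod.comp hi hN) (Primrec.nat_mod.comp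
      (Primrec.succ.comp (Primrec.nat_mod.comp hx hN)) hN)).decide
  · exact (Primrec.eq.comp (Primrec.nat_mod.comp hx hN) (Primrec.const 0)).decide

/-- The tables of the automaton of input `n`. -/
noncomputable def tables (n : ℕ) : ℕ × ℕ × List ℕ × List (List ℕ) :=
  (Fintype.card S.Cell * 3 ^ (n + 1), Fintype.card S.Cell * 3 ^ (n + 1),
    List.range (Fintype.card S.Cell * 3 ^ (n + 1)),
    (List.range (Fintype.card S.Cell * 3 ^ (n + 1))).map fun x =>
      (List.range (Fintype.card S.Cell * 3 ^ (n + 1))).map fun i => entry M S (3 ^ (n + 1)) x i)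

theorem primrec_tables : Primrec (tables M S) := by
  have hp : Primrec₂ ((· ^ ·) : ℕ → ℕ → ℕ) := Primrec₂.unpaired'.1 Nat.Primrec.pow
  have hN : Primrec fun n : ℕ => 3 ^ (n + 1) := hp.comp (Primrec.const 3) Primrec.succ
  have hs : Primrec fun n : ℕ => Fintype.card S.Cell * 3 ^ (n + 1) :=
    Primrec.nat_mul.comp (Primrec.const _) hN
  have hr := Primrec.list_range.comp hs
  refine Primrec.pair hs (Primrec.pair hs (Primrec.pair hr (Primrec.list_map hr ?_)))
  have h1 : Primrec fun y : (ℕ × ℕ) × ℕ => entry M S (3 ^ (y.1.1 + 1)) y.1.2 y.2 :=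
    (primrec_entry M S).comp (Primrec.pair (hN.comp (Primrec.fst.comp Primrec.fst))
      (Primrec.pair (Primrec.snd.comp Primrec.fst) Primrec.snd))
  have h2 : Primrec fun y : ℕ × ℕ => (List.range (Fintype.card S.Cell * 3 ^ (y.1 + 1))).map
      fun i => entry M S (3 ^ (y.1 + 1)) y.2 i :=
    Primrec.list_map (hr.comp Primrec.fst) h1.to₂
  exact h2.to₂

theorem ofFn_eq_map {β : Type} (s : ℕ) (g : ℕ → β) :
    List.ofFn (fun i : Fin s => g i.val) = (List.range s).map g := by
  apply List.ext_getElem <;> simp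

theorem tables_eq (n : ℕ) : tables M S n =
    (Fintype.card S.Cell * 3 ^ (n + 1), Fintype.card S.Cell * 3 ^ (n + 1),
      List.ofFn (fun i : Fin (Fintype.card S.Cell * 3 ^ (n + 1)) => (id i).val),
      List.ofFn fun x => List.ofFn fun i => (aut M S n x i).val) := by
  simp only [tables, aut_val, id]
  rw [ofFn_eq_map _ (fun i => i), List.map_id', ← ofFn_eq_map]
  simp only [← ofFn_eq_map]

end

theorem undecidable :
    ¬ ∃ D : ℕ × ℕ × List ℕ × List (List ℕ) →. Bool, Partrec D ∧
      ∀ (n m : ℕ) (f : Fin m → Fin n) (ρ : Fin n → Equiv.Perm (Fin m)),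
        ∃ b ∈ D (n, m, List.ofFn fun i => (f i).val,
            List.ofFn fun x => List.ofFn fun i => (ρ x i).val),
          (b = true ↔ Finite (Subgroup.closure
            {g : Equiv.Perm (List (Fin m)) | ∃ x, ⇑g = wordMap f ρ x})) := by
  rintro ⟨D, hD, h⟩
  obtain ⟨Q, ι, _, _, _, M, hM⟩ := exists_mach_undecidable
  obtain ⟨S⟩ := exists_sys (Lab := MLab Q ι) Prod.fst (MLh M)
  choose g hg using fun n => h _ _ id (aut M S n)
  refine hM (ComputablePred.computable_iff.mpr ⟨g, ?_, funext fun n => propext ?_⟩)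
  · refine (hD.comp (primrec_tables M S).to_comp).of_eq_tot fun n => ?_
    rw [tables_eq]
    exact (hg n).1
  · rw [← aut_finite_iff M S n]
    exact (hg n).2.symm

end Pool.Agent.Lib.MP_322aed_lc
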