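import Mathlib

/-!
Straight line programs on a row of cells.  Each cell has three dirty one bit lanes and a payload.
A gate acts on all cells of one residue class modulo three and reads the left neighbour.
-/

namespace Pool.Agent.Lib.MP_322aed_lc

open Function

/-- Three one bit registers. -/
abbrev Lanes := ZMod 3 → ZMod 2

/-- Add `v` to lane `a`. -/
def tg (l : Lanes) (a : ZMod 3) (v : ZMod 2) : Lanes := l + Pi.single a v

/-- The gates. -/
inductive Op (Φ I : Type) where
  | load (a : ZMod 3) (f : Φ)
  | relay (a : ZMod 3)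
  | toff (a : ZMod 3)
  | ctl (ι : I)
  | alw (ι : I)

/-- Formulas over features of payloads further left. -/
inductive Fm (Φ : Type) where
  | zero
  | lit (δ : ℕ) (f : Φ)
  | xor (p q : Fm Φ)
  | and (p q : Fm Φ)

section

variable {Φ I W : Type}

/-- The program adding a feature of the payload at distance `δ + 1` to lane `a`. -/
def far (I : Type) (f : Φ) : ℕ → ZMod 3 → ZMod 3 → List (ZMod 3 × Op Φ I)
  | 0, κ, a => [(κ, .load a f)]
  | δ + 1, κ, a => (κ, .relay a) :: (far I f δ (κ - 1) (a + 1) ++
      (κ, .relay a) :: far I f δ (κ - 1) (a + 1))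

/-- The program adding the value of a formula to lane `a`. -/
def comp (I : Type) (κ : ZMod 3) : Fm Φ → ZMod 3 → List (ZMod 3 × Op Φ I)
  | .zero, _ => []
  | .lit δ f, a => far I f δ κ a
  | .xor p q, a => comp I κ p a ++ comp I κ q a
  | .and p q, a => (κ, .toff a) :: (comp I κ p (a + 1) ++ (κ, .toff a) :: (comp I κ q (a + 2) ++
      (κ, .toff a) :: (comp I κ p (a + 1) ++ (κ, .toff a) :: comp I κ q (a + 2))))

/-- The program applying `ι` to the payload when the formula holds. -/
def ctrl (κ : ZMod 3) (p : Fm Φ) (ι : I) : List (ZMod 3 × Op Φ I) :=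
  (κ, .ctl ι) :: (comp I κ p 0 ++ (κ, .ctl ι) :: comp I κ p 0)

/-- The length of the program of a formula. -/
def Fm.cost : Fm Φ → ℕ
  | .zero => 0
  | .lit δ _ => 3 * 2 ^ δ
  | .xor p q => p.cost + q.cost
  | .and p q => 2 * p.cost + 2 * q.cost + 4

theorem length_far (f : Φ) (δ : ℕ) (κ a : ZMod 3) :
    (far I f δ κ a).length + 2 ≤ 3 * 2 ^ δ := by
  induction δ generalizing κ a with
  | zero => simp [far]
  | succ δ ih =>
    have := ih (κ - 1) (a + 1)
    simp only [far, List.length_cons, List.length_append, pow_succ]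
    omega

theorem length_comp (κ : ZMod 3) (p : Fm Φ) (a : ZMod 3) :
    (comp I κ p a).length ≤ p.cost := by
  induction p generalizing a with
  | zero => simp [comp]
  | lit δ f => have := length_far (I := I) f δ κ a; simp only [comp, Fm.cost]; omega
  | xor p q ih1 ih2 =>
    have := ih1 a; have := ih2 a
    simp only [comp, Fm.cost, List.length_append]; omega
  | and p q ih1 ih2 =>
    have := ih1 (a + 1); have := ih2 (a + 2)
    simp only [comp, Fm.cost, List.length_append, List.length_cons]; omega

theorem length_ctrl (κ : ZMod 3) (p : Fm Φ) (ι : I) :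
    (ctrl κ p ι).length ≤ 2 * p.cost + 2 := by
  have := length_comp (I := I) κ p 0
  simp only [ctrl, List.length_append, List.length_cons]; omega

variable (fv : Φ → W → ZMod 2) (iv : I → W → W)

open Classical in
/-- The action of a gate on a cell `x` with left neighbour `pl`. -/
noncomputable def act (o : Op Φ I) (ok : Prop) (pl x : Lanes × W) : Lanes × W :=
  match o with
  | .load a f => if ok then (tg x.1 a (fv f pl.2), x.2) else x
  | .relay a => if ok then (tg x.1 a (pl.1 (a + 1)), x.2) else x
  | .toff a => if ok then (tg x.1 a (x.1 (a + 1) * x.1 (a + 2)), x.2) else x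
  | .ctl ι => if ok ∧ x.1 0 = 1 then (x.1, iv ι x.2) else x
  | .alw ι => (x.1, iv ι x.2)

variable (al : ℤ → Prop)

/-- One gate applied to the whole row. -/
noncomputable def exec (d : ZMod 3 × Op Φ I) (s : ℤ → Lanes × W) : ℤ → Lanes × W :=
  fun i => if (i : ZMod 3) = d.1 then act fv iv d.2 (al i) (s (i - 1)) (s i) else s i

/-- A list of gates applied to the whole row. -/
noncomputable def run (l : List (ZMod 3 × Op Φ I)) (s : ℤ → Lanes × W) : ℤ → Lanes × W :=
  l.foldl (fun s d => exec fv iv al d s) s

@[simp] theorem run_nil (s : ℤ → Lanes × W) : run fv iv al [] s = s := rfl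

@[simp] theorem run_cons (d : ZMod 3 × Op Φ I) (l : List (ZMod 3 × Op Φ I))
    (s : ℤ → Lanes × W) : run fv iv al (d :: l) s = run fv iv al l (exec fv iv al d s) := rfl

@[simp] theorem run_append (l l' : List (ZMod 3 × Op Φ I)) (s : ℤ → Lanes × W) :
    run fv iv al (l ++ l') s = run fv iv al l' (run fv iv al l s) := by
  simp [run, List.foldl_append]

/-- Add `v i` to lane `a` of every cell `i` of class `κ`. -/
def tog (κ a : ZMod 3) (v : ℤ → ZMod 2) (s : ℤ → Lanes × W) : ℤ → Lanes × W :=
  fun i => if (i : ZMod 3) = κ then (tg (s i).1 a (v i), (s i).2) else s i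

/-- The payloads of a row. -/
def pay (s : ℤ → Lanes × W) : ℤ → W := fun i => (s i).2

@[simp] theorem pay_tog (κ a : ZMod 3) (v : ℤ → ZMod 2) (s : ℤ → Lanes × W) :
    pay (tog κ a v s) = pay s := by
  funext i; simp only [pay, tog]; split_ifs <;> rfl

open Classical in
/-- The value carried by `far`. -/
noncomputable def farv (f : Φ) (p : ℤ → W) : ℕ → ℤ → ZMod 2
  | 0, i => if al i then fv f (p (i - 1)) else 0
  | δ + 1, i => if al i then farv f p δ (i - 1) else 0

/-- The value of a formula at a cell. -/
noncomputable def val (p : ℤ → W) : Fm Φ → ℤ → ZMod 2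
  | .zero, _ => 0
  | .lit δ f, i => farv fv al f p δ i
  | .xor a b, i => val p a i + val p b i
  | .and a b, i => val p a i * val p b i

theorem val_dead (p : ℤ → W) (φ : Fm Φ) (i : ℤ) (h : ¬ al i) : val fv al p φ i = 0 := by
  induction φ with
  | zero => rfl
  | lit δ f => cases δ <;> simp [val, farv, h]
  | xor a b iha ihb => simp [val, iha, ihb]
  | and a b iha ihb => simp [val, iha]

theorem tg_zero (l : Lanes) (a : ZMod 3) : tg l a 0 = l := by simp [tg]

theorem tg_tg (l : Lanes) (a : ZMod 3) (u v : ZMod 2) : tg (tg l a u) a v = tg l a (u + v) := by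
  simp [tg, add_assoc, Pi.single_add]

theorem z2_add_self (u : ZMod 2) : u + u = 0 := by revert u; decide

theorem exec_relay (κ a : ZMod 3) (s : ℤ → Lanes × W) :
    exec fv iv al (κ, .relay a) s =
      tog κ a (fun i => by classical exact if al i then (s (i - 1)).1 (a + 1) else 0) s := by
  funext i
  simp only [exec, tog, act]
  split_ifs <;> simp [tg_zero]

theorem exec_toff (κ a : ZMod 3) (s : ℤ → Lanes × W) :
    exec fv iv al (κ, .toff a) s =
      tog κ a (fun i => by
        classical exact if al i then (s i).1 (a + 1) * (s i).1 (a + 2) else 0) s := by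
  funext i
  simp only [exec, tog, act]
  split_ifs <;> simp [tg_zero]

theorem run_far (f : Φ) (δ : ℕ) (κ a : ZMod 3) (s : ℤ → Lanes × W) :
    run fv iv al (far I f δ κ a) s = tog κ a (farv fv al f (pay s) δ) s := by
  induction δ generalizing κ a s with
  | zero =>
    funext i
    simp only [far, run_cons, run_nil, exec, tog, act, farv, pay]
    split_ifs <;> simp [tg_zero]
  | succ δ ih =>
    simp only [far, run_cons, run_append, ih, exec_relay, pay_tog]
    funext i
    have h1 : ∀ κ : ZMod 3, ¬ (κ = κ - 1) := by decide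
    have h2 : ∀ κ : ZMod 3, ¬ (κ - 1 = κ) := by decide
    by_cases hi : (i : ZMod 3) = κ
    · subst hi
      simp only [tog, h1, if_false, if_true, Int.cast_sub, Int.cast_one, h2, farv, tg_tg]
      congr 2
      split_ifs
      · simp only [tg, Pi.add_apply, Pi.single_eq_same]
        rw [← add_assoc, z2_add_self, zero_add]
      · simp
    · by_cases hj : (i : ZMod 3) = κ - 1
      · simp [tog, hj, tg_tg, z2_add_self, tg_zero, h2]
      · simp [tog, hi, hj]

theorem run_comp (κ : ZMod 3) (φ : Fm Φ) (a : ZMod 3) (s : ℤ → Lanes × W) :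
    run fv iv al (comp I κ φ a) s = tog κ a (val fv al (pay s) φ) s := by
  induction φ generalizing a s with
  | zero => funext i; simp [comp, tog, val, tg_zero]
  | lit δ f => simp only [comp, run_far]; rfl
  | xor p q ihp ihq =>
    simp only [comp, run_append, ihp, ihq, pay_tog]
    funext i
    by_cases hi : (i : ZMod 3) = κ <;> simp [tog, hi, tg_tg, val]
  | and p q ihp ihq =>
    simp only [comp, run_cons, run_append, ihp, ihq, exec_toff, pay_tog]
    funext i
    by_cases hi : (i : ZMod 3) = κ
    · by_cases ha : al i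
      · simp only [tog, hi, if_true, ha, val]
        congr 1
        generalize val fv al (pay s) p i = u
        generalize val fv al (pay s) q i = v
        generalize (s i).1 = l
        funext b
        have key : ∀ (a b : ZMod 3), b = a ∨ b = a + 1 ∨ b = a + 2 := by decide
        have e1 : ∀ a : ZMod 3, a + 1 ≠ a := by decide
        have e2 : ∀ a : ZMod 3, a + 2 ≠ a := by decide
        have e3 : ∀ a : ZMod 3, a + 2 ≠ a + 1 := by decide
        rcases key a b with rfl | rfl | rfl
        · simp only [tg, Pi.add_apply, Pi.single_eq_same, Pi.single_eq_of_ne (e1 b),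
            Pi.single_eq_of_ne (e1 b).symm, Pi.single_eq_of_ne (e2 b),
            Pi.single_eq_of_ne (e2 b).symm, Pi.single_eq_of_ne (e3 b),
            Pi.single_eq_of_ne (e3 b).symm, add_zero]
          generalize l b = x
          generalize l (b + 1) = y
          generalize l (b + 2) = z
          revert x y z u v; decide
        · simp only [tg, Pi.add_apply, Pi.single_eq_same, Pi.single_eq_of_ne (e1 a),
            Pi.single_eq_of_ne (e3 a).symm, add_zero]
          rw [add_assoc, z2_add_self, add_zero]
        · simp only [tg, Pi.add_apply, Pi.single_eq_same, Pi.single_eq_of_ne (e2 a),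
            Pi.single_eq_of_ne (e3 a), add_zero]
          rw [add_assoc, z2_add_self, add_zero]
      · simp [tog, hi, ha, val, val_dead fv al _ _ _ ha, tg_zero]
    · simp [tog, hi]

/-- The literals of the formula that read a cell of the same class are not changed by `g`. -/
def Fm.Inv (g : W → W) : Fm Φ → Prop
  | .zero => True
  | .lit δ f => (δ + 1) % 3 = 0 → ∀ w, fv f (g w) = fv f w
  | .xor a b => a.Inv g ∧ b.Inv g
  | .and a b => a.Inv g ∧ b.Inv g

theorem farv_congr (f : Φ) (p p' : ℤ → W) (δ : ℕ) (i : ℤ)
    (h : fv f (p (i - (δ + 1))) = fv f (p' (i - (δ + 1)))) :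
    farv fv al f p δ i = farv fv al f p' δ i := by
  induction δ generalizing i with
  | zero => simp only [farv]; simp only [Nat.cast_zero, zero_add] at h; rw [h]
  | succ δ ih =>
    simp only [farv]
    rw [ih (i - 1)]
    have : i - 1 - ((δ : ℤ) + 1) = i - (((δ + 1 : ℕ) : ℤ) + 1) := by push_cast; ring
    rw [this]; exact h

theorem val_congr (g : W → W) (φ : Fm Φ) (hφ : φ.Inv fv g) (p p' : ℤ → W) (i : ℤ)
    (h : ∀ j, p' j = p j ∨ ((j : ZMod 3) = (i : ZMod 3) ∧ p' j = g (p j))) :
    val fv al p' φ i = val fv al p φ i := by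
  induction φ with
  | zero => rfl
  | lit δ f =>
    apply farv_congr
    rcases h (i - (δ + 1)) with h | ⟨h1, h2⟩
    · rw [h]
    · rw [h2]
      apply hφ
      have h3 : (((δ + 1 : ℕ) : ℤ) : ZMod 3) = 0 := by
        push_cast at h1 ⊢
        linear_combination (-1 : ZMod 3) * h1
      rw [Int.cast_natCast, ZMod.natCast_eq_zero_iff] at h3
      omega
  | xor a b iha ihb => simp only [val]; rw [iha hφ.1, ihb hφ.2]
  | and a b iha ihb => simp only [val]; rw [iha hφ.1, ihb hφ.2]

open Classical in
theorem run_ctrl (κ : ZMod 3) (φ : Fm Φ) (ι : I) (hι : Involutive (iv ι))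
    (hφ : φ.Inv fv (iv ι)) (s : ℤ → Lanes × W) :
    run fv iv al (ctrl κ φ ι) s = fun i : ℤ =>
      if (i : ZMod 3) = κ ∧ val fv al (pay s) φ i = 1 then ((s i).1, iv ι (s i).2) else s i := by
  simp only [ctrl, run_cons, run_append, run_comp]
  have hv : ∀ (s' : ℤ → Lanes × W) (i : ℤ), (i : ZMod 3) = κ →
      val fv al (pay (exec fv iv al (κ, .ctl ι) s')) φ i = val fv al (pay s') φ i := by
    intro s' i hi
    apply val_congr fv al (iv ι) φ hφ
    intro j
    simp only [pay, exec, act]
    split_ifs with h1 h2
    · right; exact ⟨h1.trans hi.symm, rfl⟩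
    · left; rfl
    · left; rfl
  funext i
  by_cases hi : (i : ZMod 3) = κ
  · have e1 : ∀ (v : ℤ → ZMod 2) (s' : ℤ → Lanes × W),
        tog κ 0 v s' i = (tg (s' i).1 0 (v i), (s' i).2) := by
      intro v s'; simp [tog, hi]
    have e2 : ∀ (s' : ℤ → Lanes × W), exec fv iv al (κ, .ctl ι) s' i =
        if al i ∧ (s' i).1 0 = 1 then ((s' i).1, iv ι (s' i).2) else s' i := by
      intro s'; simp [exec, hi, act]
    rw [e1, hv _ i hi, pay_tog, hv _ i hi, e2, e1, hv _ i hi, e2]
    by_cases ha : al i
    · generalize val fv al (pay s) φ i = u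
      generalize s i = x
      obtain ⟨l, w⟩ := x
      have z2 : ∀ u : ZMod 2, u = 0 ∨ u = 1 := by decide
      have t0 : ∀ u : ZMod 2, tg l 0 u 0 = l 0 + u := by intro u; simp [tg]
      have o2 : (1 : ZMod 2) + 1 = 0 := by decide
      rcases z2 u with rfl | rfl <;> rcases z2 (l 0) with h | h <;>
        simp [ha, hi, h, t0, tg_tg, tg_zero, o2, hι w]
    · simp [ha, val_dead fv al _ _ _ ha, tg_zero]
  · simp [tog, hi, exec]

end

end Pool.Agent.Lib.MP_322aed_lc
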