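import Pool.Agent.Lib.MP_322aed_lc.Sys

/-!
The one way cellular automaton and the proof that it simulates itself on blocks of three cells.
-/

namespace Pool.Agent.Lib.MP_322aed_lc

open Function

namespace Sys

variable {Lab : Type} [Fintype Lab] {cls : Lab → ZMod 3} {Lh : Lab → Lab → Lab → Prop}
  (S : Sys cls Lh)

/-- Label and clock. -/
abbrev Hd := Lab × ZMod (S.k + 2)

/-- Payloads. -/
abbrev W := S.Hd × Lanes

/-- Cells. -/
abbrev Cell := S.Hd × (Lanes × S.W)

theorem length_prog : (prog cls Lh S.code).length = S.k + 2 := by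
  simp [prog, S.len]

/-- The gate run at a clock value. -/
noncomputable def gate (τ : ZMod (S.k + 2)) : Desc Lab S.m :=
  (prog cls Lh S.code).getD τ.val (0, .toff 0)

open Classical in
/-- The meaning of the features. -/
noncomputable def fv : Feat Lab S.m → S.W → ZMod 2
  | .inl l, w => if w.1.1 = l then 1 else 0
  | .inr (.inl x), w => if S.ccode w.1.2 x.1 = x.2 then 1 else 0
  | .inr (.inr (.inl x)), w => if S.code (S.gate w.1.2) x.1 = x.2 then 1 else 0
  | .inr (.inr (.inr a)), w => w.2 a

/-- The meaning of the payload involutions. -/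
def iv : Pv → S.W → S.W
  | .inl a, w => (w.1, tg w.2 a 1)
  | .inr (.inl a), w => (w.1, tg w.2 a (w.2 (a + 1) * w.2 (a + 2)))
  | .inr (.inr σ), w => ((w.1.1, (if σ then 1 else 0) - w.1.2), w.2)

theorem iv_lab (ι : Pv) (w : S.W) : (S.iv ι w).1.1 = w.1.1 := by
  rcases ι with a | a | σ <;> rfl

theorem iv_invol (ι : Pv) : Involutive (S.iv ι) := by
  have e2 : ∀ a : ZMod 3, a + 2 ≠ a := by decide
  rintro ⟨⟨l, τ⟩, x⟩
  rcases ι with a | a | σ
  · simp [iv, tg_tg, z2_add_self, tg_zero]
  · have h1 : ∀ v, tg x a v (a + 1) = x (a + 1) := by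
      intro v; simp [tg]
    have h2 : ∀ v, tg x a v (a + 2) = x (a + 2) := by
      intro v; simp [tg, Pi.single_eq_of_ne (e2 a)]
    simp [iv, h1, h2, tg_tg, z2_add_self, tg_zero]
  · simp [iv]

/-- A sound link between a cell and its left neighbour. -/
def okc (pred cur : S.Cell) : Prop := Lh pred.1.1 cur.1.1 pred.2.2.1.1 ∧ pred.1.2 = cur.1.2

/-- The local rule. -/
noncomputable def stp (ex : Prop) (pred cur : S.Cell) : S.Cell :=
  ((cur.1.1, cur.1.2 + 1),
    if cls cur.1.1 = (S.gate cur.1.2).1 then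
      act S.fv S.iv (S.gate cur.1.2).2 (S.okc pred cur ∧ ex) pred.2 cur.2 else cur.2)

/-- The global rule, with an extra fixed condition on links. -/
noncomputable def F (ex : ℤ → Prop) (c : ℤ → S.Cell) : ℤ → S.Cell :=
  fun i => S.stp (ex i) (c (i - 1)) (c i)

theorem stp_lab (ex : Prop) (pred cur : S.Cell) : (S.stp ex pred cur).2.2.1.1 = cur.2.2.1.1 := by
  simp only [stp]
  split_ifs
  · unfold act
    split <;> (try split_ifs) <;> simp [iv_lab]
  · rfl

theorem stp_not_ok (ex ex' : Prop) (pred pred' cur : S.Cell) (h : ¬ (S.okc pred cur ∧ ex))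
    (h' : ¬ (S.okc pred' cur ∧ ex')) : S.stp ex pred cur = S.stp ex' pred' cur := by
  simp only [stp]
  congr 1
  split_ifs
  · unfold act
    split <;> simp [h, h']
  · rfl

/-- Writing a row of cells into the payloads of a row three times as long. -/
def enc (s : ℤ → Lanes × S.W) (C : ℤ → S.Cell) : ℤ → Lanes × S.W := fun i =>
  ((s i).1, if i % 3 = 0 then ((C (i / 3)).1, (s i).2.2)
    else if i % 3 = 1 then ((s i).2.1, (C (i / 3)).2.1) else (C (i / 3)).2.2)

/-- Reading a row of cells from the payloads. -/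
def dec (s : ℤ → Lanes × S.W) : ℤ → S.Cell := fun X =>
  ((s (3 * X)).2.1, ((s (3 * X + 1)).2.2, (s (3 * X + 2)).2))

theorem enc0 (s : ℤ → Lanes × S.W) (C : ℤ → S.Cell) (X : ℤ) :
    S.enc s C (3 * X) = ((s (3 * X)).1, ((C X).1, (s (3 * X)).2.2)) := by
  have h1 : 3 * X % 3 = 0 := by omega
  have h2 : 3 * X / 3 = X := by omega
  simp only [enc, h1, h2, if_true]

theorem enc1 (s : ℤ → Lanes × S.W) (C : ℤ → S.Cell) (X : ℤ) :
    S.enc s C (3 * X + 1) = ((s (3 * X + 1)).1, ((s (3 * X + 1)).2.1, (C X).2.1)) := by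
  have h1 : (3 * X + 1) % 3 = 1 := by omega
  have h2 : (3 * X + 1) / 3 = X := by omega
  simp [enc, h1, h2]

theorem enc2 (s : ℤ → Lanes × S.W) (C : ℤ → S.Cell) (X : ℤ) :
    S.enc s C (3 * X + 2) = ((s (3 * X + 2)).1, (C X).2.2) := by
  have h1 : (3 * X + 2) % 3 = 2 := by omega
  have h2 : (3 * X + 2) / 3 = X := by omega
  simp [enc, h1, h2]

theorem tri (P : ℤ → Prop) (h0 : ∀ X, P (3 * X)) (h1 : ∀ X, P (3 * X + 1))
    (h2 : ∀ X, P (3 * X + 2)) (i : ℤ) : P i := by
  have : i = 3 * (i / 3) ∨ i = 3 * (i / 3) + 1 ∨ i = 3 * (i / 3) + 2 := by omega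
  rcases this with h | h | h <;> rw [h]
  exacts [h0 _, h1 _, h2 _]

theorem enc_dec (s : ℤ → Lanes × S.W) : S.enc s (S.dec s) = s := by
  funext i
  induction i using tri with
  | h0 X => rw [enc0]; rfl
  | h1 X => rw [enc1]; rfl
  | h2 X => rw [enc2]; rfl

theorem dec_enc (s : ℤ → Lanes × S.W) (C : ℤ → S.Cell) : S.dec (S.enc s C) = C := by
  funext X
  simp only [dec, enc0, enc1, enc2]

theorem c0 (X : ℤ) : ((3 * X : ℤ) : ZMod 3) = 0 := by
  push_cast; rw [show (3 : ZMod 3) = 0 from rfl, zero_mul]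

theorem c1 (X : ℤ) : ((3 * X + 1 : ℤ) : ZMod 3) = 1 := by
  rw [Int.cast_add, c0]; simp

theorem c2 (X : ℤ) : ((3 * X + 2 : ℤ) : ZMod 3) = 2 := by
  rw [Int.cast_add, c0]; simp

variable (al : ℤ → Prop) (hal : ∀ i, al i → al (i + 1))

include hal

open Classical in
theorem val_lit (s : ℤ → Lanes × S.W) (f : Feat Lab S.m) (δ : ℕ) (i j : ℤ) (h : j = i - δ - 1) :
    val S.fv al (pay s) (.lit δ f) i = if al (j + 1) then S.fv f (s j).2 else 0 := by
  subst h
  simp only [val, farv_mono S.fv al hal, pay, sub_add_cancel]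

theorem val_okF (s : ℤ → Lanes × S.W) (C : ℤ → S.Cell) (u : ℕ) (d : Desc Lab S.m) (X : ℤ) :
    val S.fv al (pay (S.enc s C)) (okF cls Lh S.code u d) (3 * X + 1 + u) = 1 ↔
      al (3 * X - 2) ∧ S.okc (C (X - 1)) (C X) ∧ cls (C X).1.1 = d.1 ∧ S.gate (C X).1.2 = d := by
  classical
  have l3 : ∀ f, val S.fv al (pay (S.enc s C)) (.lit (u + 3) f) (3 * X + 1 + u) =
      if al (3 * X - 2) then S.fv f ((C (X - 1)).1, (s (3 * (X - 1))).2.2) else 0 := by
    intro f
    rw [S.val_lit al hal _ f _ _ (3 * (X - 1)) (by push_cast; ring), enc0,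
      show 3 * (X - 1) + 1 = 3 * X - 2 by ring]
  have l1 : ∀ f, val S.fv al (pay (S.enc s C)) (.lit (u + 1) f) (3 * X + 1 + u) =
      if al (3 * X) then S.fv f (C (X - 1)).2.2 else 0 := by
    intro f
    rw [S.val_lit al hal _ f _ _ (3 * (X - 1) + 2) (by push_cast; ring), enc2,
      show 3 * (X - 1) + 2 + 1 = 3 * X by ring]
  have l0 : ∀ f, val S.fv al (pay (S.enc s C)) (.lit u f) (3 * X + 1 + u) =
      if al (3 * X + 1) then S.fv f ((C X).1, (s (3 * X)).2.2) else 0 := by
    intro f
    rw [S.val_lit al hal _ f _ _ (3 * X) (by ring), enc0]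
  have hv : ∀ a b : Fm (Feat Lab S.m), ∀ i, val S.fv al (pay (S.enc s C)) (.and a b) i =
    val S.fv al (pay (S.enc s C)) a i * val S.fv al (pay (S.enc s C)) b i := fun _ _ _ => rfl
  have hx : ∀ a b : Fm (Feat Lab S.m), ∀ i, val S.fv al (pay (S.enc s C)) (.xor a b) i =
    val S.fv al (pay (S.enc s C)) a i + val S.fv al (pay (S.enc s C)) b i := fun _ _ _ => rfl
  rw [okF, hv, z2_mul_eq_one, val_andT, labF, val_xorL, Finset.sum_map_toList]
  simp only [hv, hx, l3, l1, l0, z2_mul_eq_one]
  by_cases ha : al (3 * X - 2)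
  · have ha1 : al (3 * X) := by
      have := hal _ (hal _ ha); rwa [show 3 * X - 2 + 1 + 1 = 3 * X by ring] at this
    have ha2 : al (3 * X + 1) := hal _ ha1
    simp only [ha, ha1, ha2, if_true, fv, true_and]
    rw [Finset.sum_congr rfl (g := fun x => if ((C (X - 1)).1.1, (C X).1.1, (C (X - 1)).2.2.1.1) = x
      then (1 : ZMod 2) else 0), Finset.sum_ite_eq]
    · have e : ∀ (P : Prop) [Decidable P], ((if P then 1 else 0 : ZMod 2) = 1) ↔ P := by
        intro P _; split_ifs with h <;> simp [h]
      have e2 : ∀ x y : Bool, ((if x = true then 1 else 0) + (if y = false then 1 else 0) : ZMod 2)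
          = 1 ↔ x = y := by decide
      simp only [e, e2, Finset.mem_filter, Finset.mem_univ, true_and, okc, forall_and,
        ← funext_iff, S.ccode_inj.eq_iff, S.code_inj.eq_iff]
      tauto
    · rintro ⟨x, y, z⟩ _
      simp only [Prod.mk.injEq]
      by_cases hx : (C (X - 1)).1.1 = x <;> by_cases hy : (C X).1.1 = y <;>
        by_cases hz : (C (X - 1)).2.2.1.1 = z <;> simp [hx, hy, hz]
  · simp [ha]

theorem val_alwF (s : ℤ → Lanes × S.W) (C : ℤ → S.Cell) (d : Desc Lab S.m) (X : ℤ) :
    val S.fv al (pay (S.enc s C)) (.and (clsF cls S.m d.1)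
      (andT S.m (fun b => .lit 1 (.inr (.inr (.inl (b, S.code d b))))))) (3 * X + 2) = 1 ↔
      al (3 * X + 1) ∧ cls (C X).1.1 = d.1 ∧ S.gate (C X).1.2 = d := by
  classical
  have l0 : ∀ f, val S.fv al (pay (S.enc s C)) (.lit 1 f) (3 * X + 2) =
      if al (3 * X + 1) then S.fv f ((C X).1, (s (3 * X)).2.2) else 0 := by
    intro f
    rw [S.val_lit al hal _ f _ _ (3 * X) (by push_cast; ring), enc0]
  have hv : ∀ a b : Fm (Feat Lab S.m), ∀ i, val S.fv al (pay (S.enc s C)) (.and a b) i =
    val S.fv al (pay (S.enc s C)) a i * val S.fv al (pay (S.enc s C)) b i := fun _ _ _ => rfl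
  rw [hv, z2_mul_eq_one, val_andT, clsF, val_xorL, Finset.sum_map_toList]
  simp only [l0]
  by_cases ha : al (3 * X + 1)
  · have e : ∀ (P : Prop) [Decidable P], ((if P then 1 else 0 : ZMod 2) = 1) ↔ P := by
      intro P _; split_ifs with h <;> simp [h]
    simp only [ha, if_true, fv, true_and, Finset.sum_ite_eq, e, Finset.mem_filter,
      Finset.mem_univ, ← funext_iff, S.code_inj.eq_iff]
  · simp [ha]

omit hal in
theorem inv_okF (u : ℕ) (hu : u ≤ 1) (d : Desc Lab S.m) (ι : Pv) :
    (okF cls Lh S.code u d).Inv S.fv (S.iv ι) := by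
  refine ⟨inv_xorL _ _ _ _ ?_, inv_andT _ _ _ _ ?_⟩
  · intro x
    refine ⟨fun h => by omega, fun h => by omega, fun _ w => ?_⟩
    simp only [fv]
    rw [iv_lab]
  · intro b
    exact ⟨⟨fun h => by omega, fun h => by omega⟩, fun h => by omega⟩

open Classical in
/-- The effect of the simulation of one gate on the row one level up. -/
noncomputable def one (d : Desc Lab S.m) (C : ℤ → S.Cell) : ℤ → S.Cell := fun X =>
  if S.gate (C X).1.2 = d ∧ al (3 * X + 1) then
    ((C X).1, (S.F (fun X => al (3 * X - 2)) C X).2) else C X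

theorem run_sim (s : ℤ → Lanes × S.W) (C : ℤ → S.Cell) (d : Desc Lab S.m) :
    run S.fv S.iv al (sim cls Lh S.code d) (S.enc s C) = S.enc s (S.one al d C) := by
  classical
  obtain ⟨κ, o⟩ := d
  have hv : ∀ a b : Fm (Feat Lab S.m), ∀ i, val S.fv al (pay (S.enc s C)) (.and a b) i =
    val S.fv al (pay (S.enc s C)) a i * val S.fv al (pay (S.enc s C)) b i := fun _ _ _ => rfl
  have ok0 := fun X => S.val_okF al hal s C 0 (κ, o) X
  have ok1 := fun X => S.val_okF al hal s C 1 (κ, o) X
  have n01 : (0 : ZMod 3) ≠ 1 := by decide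
  have n02 : (0 : ZMod 3) ≠ 2 := by decide
  have n12 : (1 : ZMod 3) ≠ 2 := by decide
  have z2 : ∀ u : ZMod 2, u = 0 ∨ u = 1 := by decide
  have up : ∀ X, al (3 * X - 2) → al (3 * X - 1) ∧ al (3 * X) ∧ al (3 * X + 1) ∧
      al (3 * X + 2) := by
    intro X h
    have h1 := hal _ h
    have h2 := hal _ h1
    have h3 := hal _ h2
    have h4 := hal _ h3
    refine ⟨?_, ?_, ?_, ?_⟩
    · convert h1 using 1; ring
    · convert h2 using 1; ring
    · convert h3 using 1; ring
    · convert h4 using 1; ring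
  have e11 : ∀ X : ℤ, 3 * X + 1 + ((1 : ℕ) : ℤ) = 3 * X + 2 := by intro X; push_cast; ring
  simp only [Nat.cast_zero, add_zero] at ok0
  simp only [e11] at ok1
  have hd : ∀ X, (S.one al (κ, o) C X).1 = (C X).1 := by
    intro X; simp only [one]; split_ifs <;> rfl
  have h2 : ∀ X, (S.one al (κ, o) C X).2 =
      if S.gate (C X).1.2 = (κ, o) ∧ al (3 * X + 1) ∧ cls (C X).1.1 = κ then
        act S.fv S.iv o (S.okc (C (X - 1)) (C X) ∧ al (3 * X - 2)) (C (X - 1)).2 (C X).2
      else (C X).2 := by
    intro X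
    simp only [one, F, stp]
    by_cases h1 : S.gate (C X).1.2 = (κ, o) <;> by_cases h2 : al (3 * X + 1) <;> simp [h1, h2]
  have e1 : ∀ a : ZMod 3, a + 1 ≠ a := by decide
  cases o with
  | load a f =>
    simp only [sim]
    rw [run_ctrl _ _ _ _ _ _ (S.iv_invol _)]
    swap
    · exact ⟨S.inv_okF 0 (by norm_num) _ _, fun h => by omega⟩
    funext i
    induction i using tri with
    | h0 X => simp only [c0, n01, false_and, if_false, enc0, hd]
    | h1 X =>
      simp only [c1, true_and, hv, z2_mul_eq_one, ok0, enc1]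
      rw [S.val_lit al hal _ f 1 _ (3 * (X - 1) + 2) (by push_cast; ring), enc2,
        show 3 * (X - 1) + 2 + 1 = 3 * X by ring, h2]
      by_cases ha : al (3 * X - 2)
      · obtain ⟨-, a1, a2, -⟩ := up X ha
        by_cases hg : S.gate (C X).1.2 = (κ, .load a f) <;> by_cases hk : cls (C X).1.1 = κ <;>
          by_cases ho : S.okc (C (X - 1)) (C X) <;>
          rcases z2 (S.fv f (C (X - 1)).2.2) with h | h <;>
          simp [ha, a1, a2, hg, hk, ho, h, act, iv, tg_zero]
      · simp [ha, act]
    | h2 X =>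
      simp only [c2, n12.symm, false_and, if_false, enc2, h2, act]
      split_ifs <;> rfl
  | relay a =>
    simp only [sim]
    rw [run_ctrl _ _ _ _ _ _ (S.iv_invol _)]
    swap
    · exact ⟨S.inv_okF 0 (by norm_num) _ _, fun _ w => by simp [fv, iv, tg]⟩
    funext i
    induction i using tri with
    | h0 X => simp only [c0, n01, false_and, if_false, enc0, hd]
    | h1 X =>
      simp only [c1, true_and, hv, z2_mul_eq_one, ok0, enc1]
      rw [S.val_lit al hal _ _ 2 _ (3 * (X - 1) + 1) (by push_cast; ring), enc1,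
        show 3 * (X - 1) + 1 + 1 = 3 * X - 1 by ring, h2]
      by_cases ha : al (3 * X - 2)
      · obtain ⟨a1, -, a2, -⟩ := up X ha
        by_cases hg : S.gate (C X).1.2 = (κ, .relay a) <;> by_cases hk : cls (C X).1.1 = κ <;>
          by_cases ho : S.okc (C (X - 1)) (C X) <;>
          rcases z2 ((C (X - 1)).2.1 (a + 1)) with h | h <;>
          simp [ha, a1, a2, hg, hk, ho, h, act, iv, tg_zero, fv]
      · simp [ha, act]
    | h2 X =>
      simp only [c2, n12.symm, false_and, if_false, enc2, h2, act]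
      split_ifs <;> rfl
  | toff a =>
    simp only [sim]
    rw [run_ctrl _ _ _ _ _ _ (S.iv_invol _) (S.inv_okF 0 (by norm_num) _ _)]
    funext i
    induction i using tri with
    | h0 X => simp only [c0, n01, false_and, if_false, enc0, hd]
    | h1 X =>
      simp only [c1, true_and, ok0, enc1]
      rw [h2]
      by_cases ha : al (3 * X - 2)
      · obtain ⟨-, -, a2, -⟩ := up X ha
        by_cases hg : S.gate (C X).1.2 = (κ, .toff a) <;> by_cases hk : cls (C X).1.1 = κ <;>
          by_cases ho : S.okc (C (X - 1)) (C X) <;>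
          simp [ha, a2, hg, hk, ho, act, iv]
      · simp [ha, act]
    | h2 X =>
      simp only [c2, n12.symm, false_and, if_false, enc2, h2, act]
      split_ifs <;> rfl
  | ctl ι =>
    simp only [sim]
    rw [run_ctrl _ _ _ _ _ _ (S.iv_invol _)]
    swap
    · exact ⟨S.inv_okF 1 (by norm_num) _ _, fun h => by omega⟩
    funext i
    induction i using tri with
    | h0 X => simp only [c0, n02, false_and, if_false, enc0, hd]
    | h1 X =>
      simp only [c1, n12, false_and, if_false, enc1, h2, act]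
      split_ifs <;> rfl
    | h2 X =>
      simp only [c2, true_and, hv, z2_mul_eq_one, ok1, enc2]
      rw [S.val_lit al hal _ _ 0 _ (3 * X + 1) (by push_cast; ring), enc1,
        show 3 * X + 1 + 1 = 3 * X + 2 by ring, h2]
      by_cases ha : al (3 * X - 2)
      · obtain ⟨-, -, a2, a3⟩ := up X ha
        by_cases hg : S.gate (C X).1.2 = (κ, .ctl ι) <;> by_cases hk : cls (C X).1.1 = κ <;>
          by_cases ho : S.okc (C (X - 1)) (C X) <;> by_cases h : (C X).2.1 0 = 1 <;>
          simp [ha, a2, a3, hg, hk, ho, h, act, fv]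
      · simp [ha, act]
  | alw ι =>
    simp only [sim]
    rw [run_ctrl _ _ _ _ _ _ (S.iv_invol _)]
    swap
    · exact ⟨inv_xorL _ _ _ _ (fun _ h => by omega), inv_andT _ _ _ _ (fun _ h => by omega)⟩
    funext i
    induction i using tri with
    | h0 X => simp only [c0, n02, false_and, if_false, enc0, hd]
    | h1 X =>
      simp only [c1, n12, false_and, if_false, enc1, h2, act]
      split_ifs <;> rfl
    | h2 X =>
      have := S.val_alwF al hal s C (κ, .alw ι) X
      simp only at this
      simp only [c2, true_and, this, enc2, h2, act]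
      by_cases ha : al (3 * X + 1) <;> by_cases hg : S.gate (C X).1.2 = (κ, .alw ι) <;>
        by_cases hk : cls (C X).1.1 = κ <;> simp [ha, hg, hk]

open Classical in
/-- The effect of the simulation of a list of gates. -/
noncomputable def many (l : List (Desc Lab S.m)) (C : ℤ → S.Cell) : ℤ → S.Cell := fun X =>
  if S.gate (C X).1.2 ∈ l ∧ al (3 * X + 1) then
    ((C X).1, (S.F (fun X => al (3 * X - 2)) C X).2) else C X

omit hal in
theorem one_many (l : List (Desc Lab S.m)) (d : Desc Lab S.m) (hd : d ∉ l) (C : ℤ → S.Cell) :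
    S.one al d (S.many al l C) = S.many al (l ++ [d]) C := by
  classical
  have h1 : ∀ X, (S.many al l C X).1 = (C X).1 := by
    intro X; simp only [many]; split_ifs <;> rfl
  have h2 : ∀ X, (S.many al l C X).2.2.1.1 = (C X).2.2.1.1 := by
    intro X; simp only [many]; split_ifs
    · exact S.stp_lab _ _ _
    · rfl
  have h3 : ∀ X, S.gate (C X).1.2 = d → S.many al l C X = C X := by
    intro X h; simp [many, h, hd]
  funext X
  by_cases hg : S.gate (C X).1.2 = d
  · by_cases ha : al (3 * X + 1)
    · simp only [one, h3 X hg, hg, ha, and_self, if_true, F]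
      simp only [many, hg, List.mem_append, List.mem_singleton, or_true, ha, and_self, if_true, F]
      congr 2
      by_cases hc : (C (X - 1)).1.2 = (C X).1.2
      · have := h3 (X - 1) (by rw [hc, hg])
        simp only [many, F] at this
        rw [this]
      · apply S.stp_not_ok
        · rintro ⟨⟨-, h⟩, -⟩
          have := h1 (X - 1)
          simp only [many, F] at this
          rw [this] at h
          exact hc h
        · rintro ⟨⟨-, h⟩, -⟩
          exact hc h
    · simp [one, many, ha]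
  · have hg' : ¬ S.gate (S.many al l C X).1.2 = d := by rw [h1]; exact hg
    simp only [one, hg', false_and, if_false]
    simp [many, hg]

theorem run_list (s : ℤ → Lanes × S.W) (C : ℤ → S.Cell) (l : List (Desc Lab S.m))
    (hl : l.Nodup) :
    run S.fv S.iv al (l.flatMap (sim cls Lh S.code)) (S.enc s C) = S.enc s (S.many al l C) := by
  induction l using List.reverseRecOn with
  | nil =>
    have : S.many al [] C = C := by funext X; simp [many]
    rw [this]; rfl
  | append_singleton l d ih =>
    rw [List.nodup_append] at hl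
    have hd : d ∉ l := fun h => hl.2.2 d h d (by simp) rfl
    rw [List.flatMap_append, run_append, ih hl.1, List.flatMap_singleton, S.run_sim al hal,
      S.one_many al l d hd]

open Classical in
/-- One step of the row one level up, seen through the alive cells. -/
noncomputable def FF (C : ℤ → S.Cell) : ℤ → S.Cell := fun X =>
  if al (3 * X + 1) then S.F (fun X => al (3 * X - 2)) C X
  else (((C X).1.1, (C X).1.2 + 1), (C X).2)

theorem run_prog (s : ℤ → Lanes × S.W) (C : ℤ → S.Cell) :
    run S.fv S.iv al (prog cls Lh S.code) (S.enc s C) = S.enc s (S.FF al C) := by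
  classical
  have n10 : (1 : ZMod 3) ≠ 0 := by decide
  have n20 : (2 : ZMod 3) ≠ 0 := by decide
  rw [prog, run_append, body, S.run_list al hal s C _ (Finset.nodup_toList _)]
  funext i
  simp only [run_cons, run_nil]
  induction i using tri with
  | h0 X =>
    have h1 : (S.many al Finset.univ.toList C X).1 = (C X).1 := by
      simp only [many]; split_ifs <;> rfl
    have h2 : (S.FF al C X).1 = ((C X).1.1, (C X).1.2 + 1) := by
      simp only [FF]; split_ifs <;> rfl
    simp only [exec, c0, if_true, act, iv, enc0, h1, h2]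
    simp [add_comm]
  | h1 X =>
    simp only [exec, c1, n10, if_false, enc1, many, FF]
    split_ifs <;> simp_all
  | h2 X =>
    simp only [exec, c2, n20, if_false, enc2, many, FF]
    split_ifs <;> simp_all

theorem run_prog_iter (s : ℤ → Lanes × S.W) (C : ℤ → S.Cell) (n : ℕ) :
    (run S.fv S.iv al (prog cls Lh S.code))^[n] (S.enc s C) = S.enc s ((S.FF al)^[n] C) := by
  induction n with
  | zero => rfl
  | succ n ih => rw [iterate_succ_apply', iterate_succ_apply', ih, S.run_prog al hal]

omit hal in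
theorem FF_full (C : ℤ → S.Cell) (n : ℕ) (X : ℤ) (hX : al (3 * X + 1)) :
    (S.FF al)^[n] C X = (S.F (fun X => al (3 * X - 2)))^[n] C X := by
  induction n generalizing X with
  | zero => rfl
  | succ n ih =>
    rw [iterate_succ_apply', iterate_succ_apply']
    simp only [FF, hX, if_true, F]
    rw [ih X hX]
    by_cases h : al (3 * X - 2)
    · rw [ih (X - 1) (by convert h using 1; ring)]
    · exact S.stp_not_ok _ _ _ _ _ (fun h' => h h'.2) (fun h' => h h'.2)

omit hal in
theorem FF_dead (C : ℤ → S.Cell) (n : ℕ) (X : ℤ) (hX : ¬ al (3 * X + 1)) :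
    ((S.FF al)^[n] C X).2 = (C X).2 := by
  induction n with
  | zero => rfl
  | succ n ih =>
    rw [iterate_succ_apply']
    simp only [FF, hX, if_false, ih]

end Sys

end Pool.Agent.Lib.MP_322aed_lc
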