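import Pool.Agent.Lib.MP_322aed_lc.Prog

/-!
The self simulating program: its gate list, its length, and the existence of the codes.
-/

namespace Pool.Agent.Lib.MP_322aed_lc

open Function

/-- Bit positions of the codes. -/
abbrev Idx (m : ℕ) := Fin m → Bool

/-- Features of a payload: its label, a bit of its clock, a bit of its gate, one of its lanes. -/
abbrev Feat (Lab : Type) (m : ℕ) := Lab ⊕ (Idx m × Bool) ⊕ (Idx m × Bool) ⊕ ZMod 3

/-- Involutions of a payload: flip a lane, Toffoli gate, reflection of the clock. -/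
abbrev Pv := ZMod 3 ⊕ ZMod 3 ⊕ Bool

/-- Gate descriptors. -/
abbrev Desc (Lab : Type) (m : ℕ) := ZMod 3 × Op (Feat Lab m) Pv

/-- The gates as a sum type. -/
def opEquiv (Φ I : Type) : Op Φ I ≃ (ZMod 3 × Φ) ⊕ ZMod 3 ⊕ ZMod 3 ⊕ I ⊕ I where
  toFun
    | .load a f => .inl (a, f)
    | .relay a => .inr (.inl a)
    | .toff a => .inr (.inr (.inl a))
    | .ctl ι => .inr (.inr (.inr (.inl ι)))
    | .alw ι => .inr (.inr (.inr (.inr ι)))
  invFun
    | .inl (a, f) => .load a f
    | .inr (.inl a) => .relay a
    | .inr (.inr (.inl a)) => .toff a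
    | .inr (.inr (.inr (.inl ι))) => .ctl ι
    | .inr (.inr (.inr (.inr ι))) => .alw ι
  left_inv := by intro x; cases x <;> rfl
  right_inv := by rintro (⟨a, f⟩ | a | a | ι | ι) <;> rfl

instance instFintypeOp (Φ I : Type) [Fintype Φ] [Fintype I] : Fintype (Op Φ I) :=
  Fintype.ofEquiv _ (opEquiv Φ I).symm

theorem card_desc (Lab : Type) [Fintype Lab] (m : ℕ) :
    Fintype.card (Desc Lab m) ≤ (9 * Fintype.card Lab + 129) * 2 ^ m := by
  have h : Fintype.card (Desc Lab m) =
      3 * (3 * (Fintype.card Lab + (2 ^ m * 2 + (2 ^ m * 2 + 3))) + 22) := by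
    rw [Fintype.card_prod, Fintype.card_congr (opEquiv _ _)]
    simp [Fintype.card_sum, Fintype.card_prod, ZMod.card]
  have h1 : 1 ≤ 2 ^ m := Nat.one_le_two_pow
  rw [h]
  nlinarith

section

variable {Φ W α : Type}

/-- The sum of formulas over a list. -/
def xorL (l : List α) (g : α → Fm Φ) : Fm Φ := l.foldr (fun x acc => .xor (g x) acc) .zero

/-- The balanced conjunction over all bit positions. -/
def andT : (m : ℕ) → (Idx m → Fm Φ) → Fm Φ
  | 0, g => g Fin.elim0
  | m + 1, g => .and (andT m (fun b => g (Fin.cons false b))) (andT m (fun b => g (Fin.cons true b)))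

theorem cost_xorL (l : List α) (g : α → Fm Φ) (c : ℕ) (h : ∀ x, (g x).cost ≤ c) :
    (xorL l g).cost ≤ l.length * c := by
  induction l with
  | nil => simp [xorL, Fm.cost]
  | cons x l ih =>
    have := h x
    simp only [xorL, List.foldr_cons, Fm.cost, List.length_cons] at ih ⊢
    nlinarith

theorem cost_andT (m : ℕ) (g : Idx m → Fm Φ) (c : ℕ) (h : ∀ x, (g x).cost ≤ c) :
    (andT m g).cost + 2 ≤ 4 ^ m * (c + 2) := by
  induction m with
  | zero => have := h Fin.elim0; simp only [andT]; omega
  | succ m ih =>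
    have h1 := ih (fun b => g (Fin.cons false b)) (fun _ => h _)
    have h2 := ih (fun b => g (Fin.cons true b)) (fun _ => h _)
    simp only [andT, Fm.cost, pow_succ]
    nlinarith

variable (fv : Φ → W → ZMod 2) (al : ℤ → Prop)

theorem inv_xorL (k : W → W) (l : List α) (g : α → Fm Φ) (h : ∀ x, (g x).Inv fv k) :
    (xorL l g).Inv fv k := by
  induction l with
  | nil => trivial
  | cons x l ih => exact ⟨h x, ih⟩

theorem inv_andT (k : W → W) (m : ℕ) (g : Idx m → Fm Φ) (h : ∀ x, (g x).Inv fv k) :
    (andT m g).Inv fv k := by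
  induction m with
  | zero => exact h _
  | succ m ih => exact ⟨ih _ (fun _ => h _), ih _ (fun _ => h _)⟩

theorem val_xorL (p : ℤ → W) (l : List α) (g : α → Fm Φ) (i : ℤ) :
    val fv al p (xorL l g) i = (l.map (fun x => val fv al p (g x) i)).sum := by
  induction l with
  | nil => rfl
  | cons x l ih => simp only [xorL, List.foldr_cons, val, List.map_cons, List.sum_cons] at ih ⊢; rw [ih]

theorem z2_mul_eq_one (u v : ZMod 2) : u * v = 1 ↔ u = 1 ∧ v = 1 := by revert u v; decide

theorem val_andT (p : ℤ → W) (m : ℕ) (g : Idx m → Fm Φ) (i : ℤ) :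
    val fv al p (andT m g) i = 1 ↔ ∀ b, val fv al p (g b) i = 1 := by
  induction m with
  | zero =>
    simp only [andT]
    constructor
    · intro h b
      rw [Subsingleton.elim b Fin.elim0]; exact h
    · intro h; exact h _
  | succ m ih =>
    simp only [andT, val, z2_mul_eq_one, ih]
    rw [Fin.forall_fin_succ_pi, Bool.forall_bool]

open Classical in
theorem farv_mono (hal : ∀ i, al i → al (i + 1)) (f : Φ) (p : ℤ → W) (δ : ℕ) (i : ℤ) :
    farv fv al f p δ i = if al (i - δ) then fv f (p (i - δ - 1)) else 0 := by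
  induction δ generalizing i with
  | zero => simp [farv]
  | succ δ ih =>
    have hup : ∀ (n : ℕ) (j : ℤ), al j → al (j + n) := by
      intro n j hj
      induction n with
      | zero => simpa using hj
      | succ n ihn => have := hal _ ihn; push_cast; rwa [← add_assoc]
    have e : i - 1 - (δ : ℤ) = i - ((δ + 1 : ℕ) : ℤ) := by push_cast; ring
    simp only [farv, ih, e]
    by_cases h : al (i - ((δ + 1 : ℕ) : ℤ))
    · have := hup (δ + 1) _ h
      rw [sub_add_cancel] at this
      simp only [this, if_true]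
    · simp only [h, if_false, ite_self]

end

section

variable {Lab : Type} [Fintype Lab] (cls : Lab → ZMod 3) (Lh : Lab → Lab → Lab → Prop)
  {m : ℕ} (code : Desc Lab m → Idx m → Bool)

open Classical in
/-- The label test of a simulated link. -/
noncomputable def labF (m : ℕ) (u : ℕ) (κ : ZMod 3) : Fm (Feat Lab m) :=
  xorL (Finset.univ.filter (fun x : Lab × Lab × Lab => Lh x.1 x.2.1 x.2.2 ∧ cls x.2.1 = κ)).toList
    (fun x => .and (.lit (u + 3) (.inl x.1)) (.and (.lit u (.inl x.2.1)) (.lit (u + 1) (.inl x.2.2))))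

open Classical in
/-- The class test of a simulated cell. -/
noncomputable def clsF (m : ℕ) (κ : ZMod 3) : Fm (Feat Lab m) :=
  xorL (Finset.univ.filter (fun x : Lab => cls x = κ)).toList (fun x => .lit 1 (.inl x))

/-- The simulated link is sound and the simulated cell runs gate `d`. -/
noncomputable def okF (u : ℕ) (d : Desc Lab m) : Fm (Feat Lab m) :=
  .and (labF cls Lh m u d.1) (andT m (fun b =>
    .and (.xor (.lit (u + 3) (.inr (.inl (b, true)))) (.lit u (.inr (.inl (b, false)))))
      (.lit u (.inr (.inr (.inl (b, code d b)))))))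

/-- The program simulating gate `d` one level up. -/
noncomputable def sim (d : Desc Lab m) : List (Desc Lab m) :=
  match d.2 with
  | .load a f => ctrl 1 (.and (okF cls Lh code 0 d) (.lit 1 f)) (.inl a)
  | .relay a => ctrl 1 (.and (okF cls Lh code 0 d) (.lit 2 (.inr (.inr (.inr (a + 1)))))) (.inl a)
  | .toff a => ctrl 1 (okF cls Lh code 0 d) (.inr (.inl a))
  | .ctl ι => ctrl 2 (.and (okF cls Lh code 1 d) (.lit 0 (.inr (.inr (.inr 0))))) ι
  | .alw ι => ctrl 2 (.and (clsF cls m d.1)
      (andT m (fun b => .lit 1 (.inr (.inr (.inl (b, code d b))))))) ι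

/-- All simulations one after the other. -/
noncomputable def body : List (Desc Lab m) :=
  (Finset.univ : Finset (Desc Lab m)).toList.flatMap (sim cls Lh code)

/-- The whole program: all simulations, then the clocks one level up advance. -/
noncomputable def prog : List (Desc Lab m) :=
  body cls Lh code ++ [(0, .alw (.inr (.inr false))), (0, .alw (.inr (.inr true)))]

theorem cost_okF (u : ℕ) (hu : u ≤ 1) (d : Desc Lab m) :
    (okF cls Lh code u d).cost ≤ (400 * Fintype.card Lab ^ 3 + 300) * 4 ^ m := by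
  have h1 : (labF cls Lh m u d.1).cost ≤ Fintype.card Lab ^ 3 * 200 := by
    refine le_trans (cost_xorL _ _ 200 ?_) ?_
    · intro x
      interval_cases u <;> simp [Fm.cost]
    · apply Nat.mul_le_mul_right
      rw [Finset.length_toList]
      refine le_trans (Finset.card_le_univ _) ?_
      simp only [Fintype.card_prod]
      exact le_of_eq (by ring)
  have h2 := cost_andT m (fun b => (Fm.and (.xor (.lit (u + 3) (.inr (.inl (b, true))))
      (.lit u (.inr (.inl (b, false))))) (.lit u (.inr (.inr (.inl (b, code d b))))) :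
        Fm (Feat Lab m))) 140 (by intro x; interval_cases u <;> simp [Fm.cost])
  have h3 : 1 ≤ 4 ^ m := Nat.one_le_pow _ _ (by norm_num)
  simp only [okF, Fm.cost]
  nlinarith [Nat.zero_le (Fintype.card Lab ^ 3)]

theorem length_sim (d : Desc Lab m) :
    (sim cls Lh code d).length ≤
      (1600 * Fintype.card Lab ^ 3 + 24 * Fintype.card Lab + 1300) * 4 ^ m := by
  have h0 := cost_okF cls Lh code 0 (by norm_num) d
  have h1 := cost_okF cls Lh code 1 (by norm_num) d
  have h3 : 1 ≤ 4 ^ m := Nat.one_le_pow _ _ (by norm_num)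
  have h4 : (clsF cls m d.1).cost ≤ Fintype.card Lab * 6 := by
    refine le_trans (cost_xorL _ _ 6 ?_) ?_
    · intro x; simp [Fm.cost]
    · apply Nat.mul_le_mul_right
      rw [Finset.length_toList]
      exact Finset.card_le_univ _
  have h5 := cost_andT m (fun b => (Fm.lit 1 (.inr (.inr (.inl (b, code d b)))) :
        Fm (Feat Lab m))) 6 (by intro x; simp [Fm.cost])
  have h6 : Fintype.card Lab ≤ Fintype.card Lab * 4 ^ m := Nat.le_mul_of_pos_right _ h3
  have h7 := Nat.zero_le (Fintype.card Lab ^ 3 * 4 ^ m)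
  unfold sim
  split <;> refine le_trans (length_ctrl _ _ _) ?_ <;> (try simp only [Fm.cost]) <;> nlinarith

theorem length_body : (body cls Lh code).length ≤ (9 * Fintype.card Lab + 129) *
      (1600 * Fintype.card Lab ^ 3 + 24 * Fintype.card Lab + 1300) * 8 ^ m := by
  have h : ∀ l : List (Desc Lab m), (l.flatMap (sim cls Lh code)).length ≤ l.length *
      ((1600 * Fintype.card Lab ^ 3 + 24 * Fintype.card Lab + 1300) * 4 ^ m) := by
    intro l
    induction l with
    | nil => simp
    | cons d l ih =>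
      have := length_sim cls Lh code d
      simp only [List.flatMap_cons, List.length_append, List.length_cons]
      nlinarith
  refine le_trans (h _) ?_
  rw [Finset.length_toList, Finset.card_univ]
  have h8 : (8 : ℕ) ^ m = 2 ^ m * 4 ^ m := by rw [← mul_pow]; norm_num
  calc _ ≤ ((9 * Fintype.card Lab + 129) * 2 ^ m) *
        ((1600 * Fintype.card Lab ^ 3 + 24 * Fintype.card Lab + 1300) * 4 ^ m) :=
        Nat.mul_le_mul_right _ (card_desc Lab m)
    _ = _ := by rw [h8]; ring

/-- The data closing the self reference. -/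
structure Sys where
  m : ℕ
  k : ℕ
  code : Desc Lab m → Idx m → Bool
  ccode : ZMod (k + 2) → Idx m → Bool
  code_inj : Injective code
  ccode_inj : Injective ccode
  len : (body cls Lh code).length = k

theorem exists_big (C : ℕ) : ∃ m : ℕ, C * 8 ^ m + 2 ≤ 2 ^ 2 ^ m := by
  refine ⟨C + 5, ?_⟩
  have h1 : C + 2 ≤ 2 ^ (C + 5) := by
    have := Nat.lt_two_pow_self (n := C + 5); omega
  have h2 : ∀ n, 4 * (n + 4) ≤ 2 ^ (n + 4) := by
    intro n
    induction n with
    | zero => norm_num
    | succ n ih => rw [show n + 1 + 4 = (n + 4) + 1 by ring, pow_succ]; omega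
  have h3 : 1 ≤ 8 ^ (C + 5) := Nat.one_le_pow _ _ (by norm_num)
  calc C * 8 ^ (C + 5) + 2 ≤ (C + 2) * 8 ^ (C + 5) := by nlinarith
    _ ≤ 2 ^ (C + 5) * 8 ^ (C + 5) := Nat.mul_le_mul_right _ h1
    _ = 2 ^ (4 * (C + 1 + 4)) := by rw [← mul_pow, pow_mul]; norm_num
    _ ≤ _ := Nat.pow_le_pow_right (by norm_num) (h2 (C + 1))

theorem exists_sys : Nonempty (Sys cls Lh) := by
  obtain ⟨m, hm⟩ := exists_big ((9 * Fintype.card Lab + 129) *
      (1600 * Fintype.card Lab ^ 3 + 24 * Fintype.card Lab + 1300))
  have hc : Fintype.card (Idx m → Bool) = 2 ^ 2 ^ m := by simp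
  have h8 : (2 : ℕ) ^ m ≤ 8 ^ m := Nat.pow_le_pow_left (by norm_num) _
  obtain ⟨code⟩ : Nonempty (Desc Lab m ↪ (Idx m → Bool)) := by
    apply Function.Embedding.nonempty_of_card_le
    rw [hc]
    refine le_trans (card_desc Lab m) (le_trans ?_ (le_trans (Nat.le_add_right _ 2) hm))
    rw [mul_assoc]
    apply Nat.mul_le_mul_left
    exact le_trans h8 (Nat.le_mul_of_pos_left _ (by positivity))
  obtain ⟨ccode⟩ : Nonempty (ZMod ((body cls Lh code).length + 2) ↪ (Idx m → Bool)) := by
    apply Function.Embedding.nonempty_of_card_le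
    rw [hc, ZMod.card]
    have := length_body cls Lh code
    omega
  exact ⟨⟨m, _, code, ccode, code.injective, ccode.injective, rfl⟩⟩

end

end Pool.Agent.Lib.MP_322aed_lc
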